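import Mathlib

/-! Rough values are almost primes. -/

set_option autoImplicit false

namespace Pool.Agent.Helper74.AE

open Finset Filter Topology

/-- the value of the form `f` at `n` is positive and has at most `r` prime factors, counted with
multiplicity -/
def AlmostPrimeAt (r : ℕ) (f : ℤ × ℤ) (n : ℕ) : Prop :=
  ∃ q : ℕ, 0 < q ∧ (q : ℤ) = f.1 * n + f.2 ∧ q.primeFactorsList.length ≤ r

theorem list_len_log (l : List ℕ) (y : ℝ) (h : ∀ p ∈ l, 0 < p ∧ y ≤ Real.log p) :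
    (l.length : ℝ) * y ≤ Real.log (l.prod : ℕ) ∧ 0 < l.prod := by
  induction l with
  | nil => simp
  | cons a l ih =>
    obtain ⟨h1, h2⟩ := ih (fun p hp => h p (List.mem_cons_of_mem _ hp))
    obtain ⟨h3, h4⟩ := h a List.mem_cons_self
    rw [List.prod_cons, List.length_cons]
    refine ⟨?_, Nat.mul_pos h3 h2⟩
    have h5 : (a : ℝ) ≠ 0 := by exact_mod_cast h3.ne'
    have h6 : ((l.prod : ℕ) : ℝ) ≠ 0 := by exact_mod_cast h2.ne'
    rw [Nat.cast_mul, Real.log_mul h5 h6, Nat.cast_add, Nat.cast_one]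
    linarith

theorem omega_rough {q : ℕ} (hq : q ≠ 0) {y : ℝ} (h : ∀ p : ℕ, p.Prime → p ∣ q → y ≤ Real.log p) :
    (q.primeFactorsList.length : ℝ) * y ≤ Real.log q := by
  have h1 := (list_len_log q.primeFactorsList y (fun p hp =>
    ⟨(Nat.prime_of_mem_primeFactorsList hp).pos, h p (Nat.prime_of_mem_primeFactorsList hp)
      (Nat.dvd_of_mem_primeFactorsList hp)⟩)).1
  rwa [Nat.prod_primeFactorsList hq] at h1

/-- the values of a form without prime factors `≤ N ^ δ` -/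
theorem ap_of {δ : ℝ} (hδ : 0 < δ) {f : ℤ × ℤ} (hf : 0 < f.1) {n N : ℕ} (hN : 3 ≤ N)
    (hfN : 16 * (f.1.natAbs + f.2.natAbs + 1) ≤ N) (hnN : n ≤ N) (hn : (N : ℝ) / 16 ≤ n)
    (h : ∀ p : ℕ, p.Prime → Real.log p ≤ δ * Real.log N → ¬ (p : ℤ) ∣ f.1 * n + f.2) :
    AlmostPrimeAt ⌊2 / δ⌋₊ f n := by
  have hNr : (3 : ℝ) ≤ N := by exact_mod_cast hN
  have hlogN : 0 < Real.log N := Real.log_pos (by linarith)
  have h1 : f.1.natAbs + f.2.natAbs + 1 ≤ n := by
    have h2 : N ≤ 16 * n := by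
      have : (N : ℝ) ≤ 16 * n := by linarith
      exact_mod_cast this
    omega
  have ha : ((f.1.natAbs : ℕ) : ℤ) = f.1 := Int.natAbs_of_nonneg hf.le
  have hb : -((f.2.natAbs : ℕ) : ℤ) ≤ f.2 := by omega
  have hb' : f.2 ≤ ((f.2.natAbs : ℕ) : ℤ) := by omega
  have h2 : (n : ℤ) ≤ f.1 * n := le_mul_of_one_le_left (Nat.cast_nonneg _) hf
  have hpos : 0 < f.1 * n + f.2 := by
    have : ((f.1.natAbs + f.2.natAbs + 1 : ℕ) : ℤ) ≤ n := by exact_mod_cast h1
    push_cast at this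
    have h3 : (0 : ℤ) ≤ |f.1| := abs_nonneg _
    have h4 := neg_abs_le f.2
    linarith
  obtain ⟨q, hq⟩ := Int.eq_ofNat_of_zero_le hpos.le
  have hq0 : 0 < q := by
    have : (0 : ℤ) < q := by rw [← hq]; exact hpos
    exact_mod_cast this
  refine ⟨q, hq0, hq.symm, ?_⟩
  have hqN : q ≤ N ^ 2 := by
    have h3 : (q : ℤ) ≤ (f.1.natAbs : ℤ) * N + f.2.natAbs := by
      rw [← hq, ha]
      have : (n : ℤ) ≤ N := by exact_mod_cast hnN
      have h4 : f.1 * (n : ℤ) ≤ f.1 * N := mul_le_mul_of_nonneg_left this hf.le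
      linarith
    have h4 : q ≤ f.1.natAbs * N + f.2.natAbs := by exact_mod_cast h3
    have h5 : f.1.natAbs + 1 ≤ N := by omega
    have h6 : f.2.natAbs ≤ N := by omega
    calc q ≤ f.1.natAbs * N + f.2.natAbs := h4
      _ ≤ f.1.natAbs * N + N := by omega
      _ = (f.1.natAbs + 1) * N := by ring
      _ ≤ N * N := Nat.mul_le_mul_right _ h5
      _ = N ^ 2 := by ring
  have h3 := omega_rough (y := δ * Real.log N) hq0.ne' (by
    intro p hp hd
    by_contra hcon
    push Not at hcon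
    apply h p hp hcon.le
    rw [hq]
    exact Int.natCast_dvd_natCast.2 hd)
  have h4 : Real.log q ≤ 2 * Real.log N := by
    have h5 : (q : ℝ) ≤ (N : ℝ) ^ 2 := by exact_mod_cast hqN
    have h6 := Real.log_le_log (by exact_mod_cast hq0) h5
    rw [Real.log_pow] at h6
    push_cast at h6
    exact h6
  apply Nat.le_floor
  rw [le_div_iff₀ hδ]
  have h5 : (q.primeFactorsList.length : ℝ) * δ * Real.log N ≤ 2 * Real.log N := by linarith
  exact le_of_mul_le_mul_right h5 hlogN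

end Pool.Agent.Helper74.AE
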