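import Mathlib
import Pool.Graph.R_pool_sql_team_seeded_620a6dc7.Z296.AP.AsmQ

/-! A given form prime and almost primes in all the classes, with an explicit
dependence on the modulus `WW D` (adapted from `Pool.Agent.Z296.AP.AsmQ`). -/

set_option autoImplicit false

namespace Pool.Agent.Helper74.AE

open Finset Filter Topology
open Pool.Agent
open Pool.Agent.H410R2 hiding GP GP_prof GP_cut_some GP_cut_none GP_lip gg_pos gg_le_one gg_anti ee_bound ee_nonneg gg_lip LB_gg LB_ee Sums exists_sums yx wx wxi Br sum_GP_none sum_GP_some sum_GP_some_ee sum_GP_some_one sum_GPr_none sum_GPr_some S1_final QI_final S2_final w_abs_le wmax gg ee I1 I2 IE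
open Pool.Agent.H361R2.GM
open Pool.Agent.H362R2.CM
open Pool.Agent.W25.UN
open Pool.Agent.W25.UB
open Pool.Agent.TH899.UG
open Pool.Agent.Y827.LS Pool.Agent.Y827.RO
open Pool.Agent.Z296.AP

open Classical in
/-- a given prime form and almost primes in every class: `c / WW D`, with `c` independent of `D` -/
def ThmQW (𝒮 : ℤ → Prop) : Prop := ∀ T : ℕ, 1 ≤ T →
  ∃ K : ℕ, 2 ≤ K ∧ ∃ δ : ℝ, 0 < δ ∧ ∃ D₀ : ℕ, ∃ c : ℝ, 0 < c ∧ ∀ D : ℕ, D₀ ≤ D →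
    ∀ (α : Fin (T * K) → ℤ) (cl : Fin (T * K) → Fin T),
    (∀ g, (univ.filter (fun i => cl i = g)).card = K) → (∀ i, 𝒮 (α i)) → (∀ i, α i ≠ 0) →
    (∀ i, (α i).natAbs ≤ D) →
    ∀ᶠ N : ℕ in atTop, ∀ (h : Fin (T * K) → ℤ) (Mo : ℕ), HB h Mo N →
    Nd α h Mo → PosR α h Mo N →
    ∀ v : ℕ, CopAt α h D Mo v → ∀ i₀ : Fin (T * K),
      c / WW D * (N / (Real.log N) ^ (T * K + 1)) ≤
        (((Icc 1 N).filter (fun n : ℕ => n ≡ v [MOD (WW D)] ∧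
        (N : ℝ) / 16 ≤ n ∧ (n : ℝ) ≤ N / 2 ∧
        (∀ p : ℕ, p.Prime → Real.log p ≤ δ * Real.log N → ∀ q,
          ¬ p ∣ LZ (uB α) (wB h Mo) q n) ∧
        (∀ g : Fin T, ∃ i, cl i = g ∧ P2 (Fm α h Mo i n)) ∧
        (Fm α h Mo i₀ n).toNat.Prime)).card : ℝ)

open Classical in
theorem thmQW_of {𝒮 : ℤ → Prop} (hSml : St_SML) (hWF : WFacts) (hRC : RootsCount) (hR2B : St_R2B 𝒮) (hR2 : St_R2LF)
    (hEXM : St_EXM) (hGAU : St_GAU) (hFT3 : St_FT3)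
    (hBPS : St_BPS) (hFLC : St_FLC3) (hSUM : St_SUM)
    (hMAS : St_MASH) (hNWL : St_NWL) (hSd : SdLZ)
    (hTWb : St_TWbH) (hU0 : St_U0F) (hL1 : St_L1F) (hU2 : St_U2F) (hUD : St_UDF)
    (hNWU : St_NWU) (hNWE : St_NWE) (hVLN : St_VLNF) : ThmQW 𝒮 := by
  intro T hT
  obtain ⟨θ, δ, J, n₀, hn₀, hθJ, hθ, hθ', hδ, hκδ, hδ2, hδ1, hTMθ⟩ := levM 1 0 (by norm_num)
  obtain ⟨s, hsd⟩ : ∃ s : ℝ, s = 1 / 2 := ⟨_, rfl⟩
  have hs0 : 0 < s := by rw [hsd]; norm_num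
  have hs1 : s < 1 := by rw [hsd]; norm_num
  obtain ⟨f₀, hf₀, hf₁, hSV⟩ := svP
  obtain ⟨DW, hWF⟩ := hWF
  obtain ⟨c₀, hc₀, hRCX0⟩ := rcx
  obtain ⟨c₁, hc₁⟩ : ∃ c₁ : ℝ, c₁ = c₀ + 1 := ⟨_, rfl⟩
  have hRCX : ∀ ε : ℝ, 0 < ε → ε ≤ 1 → ∀ U : ℕ, 1 ≤ U → ∃ N₀ : ℕ,
      ∀ N Z : ℕ, N₀ ≤ N → Z ≤ N → ∀ c : ℕ → ℝ, (∀ d, |c d| ≤ 1) →
      (∀ d, c d ≠ 0 → 1 < d ∧ Squarefree d ∧ ∀ p : ℕ, p.Prime → p ∣ d → (N : ℝ) ^ ε < (p : ℝ)) →
      ∀ u w n : ℤ, |u| ≤ U → |(w : ℝ)| ≤ 2 * U * N → u * n + w ≠ 0 →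
      |dc c Z (u * n + w)| ≤ Real.exp (c₁ / ε) * (1 + |(n : ℝ)| / N) ^ (1 / 4 : ℝ) := by
    intro ε hε hε1 U hU
    obtain ⟨N₀, hN₀⟩ := hRCX0 ε hε hε1 U hU
    refine ⟨N₀, fun N Z hN hZ c hc hcs u w n hu hw hne => (hN₀ N Z hN hZ c hc hcs u w n hu hw
      hne).trans ?_⟩
    apply mul_le_mul_of_nonneg_right _ (by positivity)
    apply Real.exp_le_exp.2
    apply div_le_div_of_nonneg_right _ hε.le
    linarith
  obtain ⟨nb, η₀, εs, hη₀, hεs, hD1⟩ := datM hR2B hR2 hEXM hGAU hFT3 hBPS hFLC hSUM hMAS hVLN hNWL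
    hSd θ δ J n₀ hn₀ hθJ (by linarith) hθ' hδ hκδ hδ2 (by linarith) hθ hδ1 (2 * c₁ + 1) c₁ f₀
    (by linarith) hSV hRCX
  have hT0 : (0 : ℝ) < T := by exact_mod_cast hT
  obtain ⟨r₀, hr₀⟩ : ∃ r₀ : ℝ, r₀ = Real.sqrt (s / (2 * T)) := ⟨_, rfl⟩
  have hr₀p : 0 < r₀ := by rw [hr₀]; exact Real.sqrt_pos.2 (by positivity)
  have hr₀2 : r₀ ^ 2 = s / (2 * T) := by rw [hr₀]; exact Real.sq_sqrt (by positivity)
  obtain ⟨e₁, he₁, hN1⟩ := numM θ (by linarith) (by linarith) T 0 hT 1 one_pos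
    (by simp) nb c₁ f₀ r₀ hf₀ hr₀p
  obtain ⟨ε₁, hε₁d⟩ : ∃ ε₁ : ℝ, ε₁ = min (min εs e₁) (min η₀ (1 / 4)) := ⟨_, rfl⟩
  have hε₁ : 0 < ε₁ := by rw [hε₁d]; exact lt_min (lt_min hεs he₁) (lt_min hη₀ (by norm_num))
  have h1 : ε₁ ≤ εs := by rw [hε₁d]; exact (min_le_left _ _).trans (min_le_left _ _)
  have h2 : ε₁ ≤ e₁ := by rw [hε₁d]; exact (min_le_left _ _).trans (min_le_right _ _)
  have h3 : ε₁ ≤ η₀ := by rw [hε₁d]; exact (min_le_right _ _).trans (min_le_left _ _)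
  have h4 : ε₁ ≤ 1 / 4 := by rw [hε₁d]; exact (min_le_right _ _).trans (min_le_right _ _)
  obtain ⟨K, Q, ε, hK, hTK, hε, hε3, hI1, hI2, hBr, hBr2, hnum, hnum2⟩ := hN1 ε₁ hε₁ h2
  obtain ⟨B₀, hB₀, hD3⟩ := hD1 ε₁ hε₁ h1 (T * K) Q (ε₁ / 4) (ε₁ / 2) ε (by omega) (by linarith)
    (by linarith) (by linarith) (by linarith) hε hε3 hI1 hI2
  obtain ⟨Db, hTb⟩ := hTWb (T * K) Q (ε₁ / 4) (ε₁ / 2) ε B₀ (by omega) (by linarith)
    (by linarith) (by linarith) (by linarith) hε hε3 hI1 hI2 hBr (by omega)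
  have hI2p' : 0 < Q.I2 := hε.trans hI2
  have hAc : 0 < Ac Q (T * K) ε := by unfold Ac; positivity
  have h1εp : 0 < 1 - ε := by linarith
  have hβc : 0 < βc Q (T * K) ε := by
    have h5 : 0 < Q.I1 - ε := by linarith
    unfold βc
    positivity
  obtain ⟨ε', hε'd⟩ : ∃ ε' : ℝ, ε' = s * (ε₁ / 4 * βc Q (T * K) ε) / (4 * 6144) := ⟨_, rfl⟩
  have hε' : 0 < ε' := by rw [hε'd]; positivity
  obtain ⟨δr, hδr, Ds, hSM⟩ := hSml (T * K) Q (ε₁ / 4) (ε₁ / 2) ε' B₀ (by linarith)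
    (by linarith) (by linarith) (by linarith) hε' hI2p' (by omega)
  obtain ⟨Cq, hCq⟩ : ∃ Cq : ℝ, Cq = ((2 : ℝ) ^ ⌈(((T * K : ℕ) : ℝ) + 2) / δr⌉₊ *
      (2 * Real.exp Real.eulerMascheroniConstant / (ε₁ / 4)) ^ (T * K + 1)) ^ 2 := ⟨_, rfl⟩
  have hCqp : 0 < Cq := by rw [hCq]; positivity
  obtain ⟨cE, hcE⟩ : ∃ cE : ℝ, cE = (1 - s) * (ε₁ / 4 * βc Q (T * K) ε) / (2 * 6144 * Cq) :=
    ⟨_, rfl⟩
  have hs1' : 0 < 1 - s := by linarith
  have hcEp : 0 < cE := by rw [hcE]; positivity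
  refine ⟨K, hK, δr, hδr, Db + Ds + DW + 2 * (T * K + 1) + 2 * (T * K + 1) ^ 2 + 2, cE / 2,
    by positivity, ?_⟩
  intro D hD
  obtain ⟨hW1, htot, hBDp, hdvd, -⟩ := hWF D (by omega)
  have hWW2 : 2 * (WW D / 2) = WW D := Nat.mul_div_cancel' (two_dvd_WW (by omega))
  have hWpos : (0 : ℝ) < WW D := by
    have h1 : WW D ≠ 0 := by
      unfold WW
      exact Finset.prod_ne_zero_iff.2 fun p hp => (Finset.mem_filter.1 hp).2.ne_zero
    exact_mod_cast Nat.pos_of_ne_zero h1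
  intro α cl hcl h𝒮 hα hαD
  have hκ : 0 < ε / 400 := by positivity
  have hI2p : 0 < Q.I2 := hε.trans hI2
  have evTb : ∀ᶠ N : ℕ in atTop, ∀ r ∈ range (Rn (ε / 400)), ∀ (h : Fin (T * K) → ℤ) (Mo : ℕ),
      HB h Mo N → Nd α h Mo →
      PosR α h Mo N → ∀ v : ℕ, (∀ j, ∀ n : ℤ, n ≡ v [ZMOD (WW D)] →
        IsCoprime (uB α j * n + wB h Mo j) ((WW D : ℕ) : ℤ)) →
      ∀ Z : ℝ, Z = ZZ (T * K) (Pool.Agent.W25.UN.VV α h Mo D (DB (2 * N) B₀))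
          (ε / 400 * (ctr (ε / 400) r * N)) (WW D)
          (BD (DB (2 * N) B₀)) (ε₁ / 4 * Real.log N) →
      ∀ i : Fin (T * K), Z * (ε₁ / 4 * βc Q (T * K) ε) ≤ ∑ n ∈ Ns α h D (DB (2 * N) B₀) Mo v N,
      (if (Fm α h Mo i n).toNat.Prime then
        lt (ctr (ε / 400) r * N) (ε / 400 * (ctr (ε / 400) r * N)) n *
        (wZ Q (uB α) (wB h Mo) (PBF α h Mo N B₀ (ε₁ / 2)) (ε₁ / 4 * Real.log N) n) ^ 2 else 0) := by
    rw [Filter.eventually_all_finset]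
    intro r hr
    have hc := ctr_range hκ (Finset.mem_range.1 hr)
    exact hTb D (by omega) α hα hαD (ctr (ε / 400) r) hc.1 hc.2
  filter_upwards [hD3 B₀ le_rfl D (by omega) α h𝒮 hα hαD, evTb,
    hSM D (by omega) α hα hαD,
    rough_pt (T * K) α Q (ε₁ / 4) (ε₁ / 2) δr B₀ (by linarith) (by linarith) hδr Cq hCq,
    ev_log 1, ev_dble B₀, Pool.Agent.W22.UB.ev_DB B₀ (by omega) D,
    hVLN (T * K) B₀ D ε₁ (ε₁ / 4) (by omega) (by omega) hε₁ (by linarith) (by linarith),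
    eventually_gt_atTop 10000, ev_poly 128 0 ε₁ 1 (by linarith), ev_poly 128 0 θ 1 (by linarith),
    spc_mass (T * K) Q (ε₁ / 4) (ε₁ / 2) δr ε₁ B₀ D (by linarith) (by linarith) hδr Cq ε'
      hCqp.le hε' α hα hαD hWpos,
    ev_poly ((D : ℝ) + 2) 0 1 (1001 / 1000) (by norm_num)]
    with N hdat hTb' hsm hpt hl1N hDN hDge hvln hN1' hp8 hp9 hspc hsz1
  intro h Mo hMo hnd hpos v hv i₀
  replace hvln := hvln α h Mo hα hαD
  obtain ⟨η₂, A, E₁, D₁, Z, Tr, t, th, dl, b, Zb, cb, bm, cbm, HM⟩ := hdat h Mo hMo hnd v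
  have HL := HM.dL
  have H := HL.dB
  have hN0 : (0 : ℝ) < N := by exact_mod_cast (by omega : 0 < N)
  have hbig : ((2 * N : ℕ) : ℝ) ^ ε₁ ≤ N / 64 := by
    push_cast
    rw [Real.mul_rpow (by norm_num) hN0.le]
    have h5 : (2 : ℝ) ^ ε₁ ≤ 2 := by
      calc (2 : ℝ) ^ ε₁ ≤ (2 : ℝ) ^ (1 : ℝ) :=
            Real.rpow_le_rpow_of_exponent_le (by norm_num) (by linarith)
        _ = 2 := Real.rpow_one 2
    rw [pow_zero, mul_one, Real.rpow_one] at hp8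
    have h6 : (2 : ℝ) ^ ε₁ * (N : ℝ) ^ ε₁ ≤ 2 * (N : ℝ) ^ ε₁ :=
      mul_le_mul_of_nonneg_right h5 (by positivity)
    linarith
  have hbigθ : ((2 * N : ℕ) : ℝ) ^ θ ≤ N / 64 := by
    push_cast
    rw [Real.mul_rpow (by norm_num) hN0.le]
    have h5 : (2 : ℝ) ^ θ ≤ 2 := by
      calc (2 : ℝ) ^ θ ≤ (2 : ℝ) ^ (1 : ℝ) :=
            Real.rpow_le_rpow_of_exponent_le (by norm_num) (by linarith)
        _ = 2 := Real.rpow_one 2
    rw [pow_zero, mul_one, Real.rpow_one] at hp9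
    have h6 : (2 : ℝ) ^ θ * (N : ℝ) ^ θ ≤ 2 * (N : ℝ) ^ θ :=
      mul_le_mul_of_nonneg_right h5 (by positivity)
    linarith
  have hcop : ∀ j, ∀ n : ℤ, n ≡ v [ZMOD (WW D)] →
      IsCoprime (uB α j * n + wB h Mo j) ((WW D : ℕ) : ℤ) := hv
  have hpt' := hpt h Mo hMo H.sd hDN
  have hg0 : 0 ≤ g0c (4 * θ - 2) (ε₁ / 4) ε := by
    unfold g0c
    have h5 : (0 : ℝ) < (1 / 4 + (4 * θ - 2) / 8) * (1 - ε) := mul_pos (by linarith) (by linarith)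
    positivity
  have hCR : 1 ≤ Real.exp (c₁ / ε₁) := Real.one_le_exp (by
    have : 0 < c₁ := by linarith
    positivity)
  have hsz : ∀ (i : Fin (T * K)) (n : ℕ), n ≤ N →
      |(Fm α h Mo i n : ℝ)| ≤ ((2 * N : ℕ) : ℝ) ^ (1001 / 1000 : ℝ) := by
    intro i n hn
    rw [pow_zero, mul_one, Real.rpow_one] at hsz1
    have h5 : |Fm α h Mo i n| ≤ ((D + 2) * N : ℕ) := by
      have e5 : Fm α h Mo i n = α i * n + (Mo + h i) := by
        unfold Fm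
        ring
      rw [e5]
      have h6 := hMo i
      have h7 : |α i * (n : ℤ)| ≤ D * N := by
        rw [abs_mul]
        have h8 : |α i| ≤ D := by
          have := hαD i
          rw [Int.abs_eq_natAbs]
          exact_mod_cast this
        have h9 : |(n : ℤ)| ≤ N := by
          rw [Nat.abs_cast]
          exact_mod_cast hn
        exact mul_le_mul h8 h9 (abs_nonneg _) (by positivity)
      have h8 := abs_add_le (α i * (n : ℤ)) (Mo + h i)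
      push_cast
      have h9 : (0 : ℤ) ≤ N := by positivity
      nlinarith
    have h6 : |(Fm α h Mo i n : ℝ)| ≤ (((D + 2) * N : ℕ) : ℝ) := by
      rw [← Int.cast_abs]
      exact_mod_cast h5
    push_cast at h6
    refine h6.trans (hsz1.trans ?_)
    apply Real.rpow_le_rpow hN0.le _ (by norm_num)
    push_cast
    linarith
  have HY : Hyp α h D (DB (2 * N) B₀) Mo v ∅ := {
    hα := hα
    hW := hW1
    tot := htot
    BDpos := hBDp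
    hdvd := hdvd
    hDk := by omega
    hDα := hαD
    hDD := hDge
    hP := fun p hp => absurd hp (Finset.notMem_empty _)
    hres := fun p hp => absurd hp (Finset.notMem_empty _)
    hv := hcop }
  have hns : ∀ n ∈ Ns α h D (DB (2 * N) B₀) Mo v N, ∀ p : ℕ, p.Prime → ∀ q,
      p ∣ LZ (uB α) (wB h Mo) q n → DB (2 * N) B₀ < p := fun n hn p hp q hd =>
    bad_big hRC HY N n p hn hp q hd
  have hg0ρ : f₀ * (ε₁ / 4) ≤ g0c (4 * θ - 2) (ε₁ / 4) ε := by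
    unfold g0c
    have h5 : f₀ * (ε₁ / 4) ≤ 1 * (ε₁ / 4) := mul_le_mul_of_nonneg_right hf₁ (by linarith)
    refine h5.trans ?_
    rw [one_mul, le_div_iff₀ (mul_pos (by linarith) h1εp)]
    have h6 : (1 / 4 + (4 * θ - 2) / 8) * (1 - ε) ≤ 1 * 1 :=
      mul_le_mul (by linarith) (by linarith) h1εp.le (by norm_num)
    have h7 : ε₁ / 4 * ((1 / 4 + (4 * θ - 2) / 8) * (1 - ε)) ≤ ε₁ / 4 * (1 * 1) :=
      mul_le_mul_of_nonneg_left h6 (by linarith)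
    linarith
  have hρβ : 0 < ε₁ / 4 * βc Q (T * K) ε := mul_pos (by linarith) hβc
  have hres := core_atQ hU0 hL1 hU2 hUD hNWU hNWE hI1 hI2 hBr hBr2 hCR (Real.exp_pos _).le hg0
    hf₀ hf₁ hg0ρ s r₀ hs0 hs1 hnum2
    HM hMo hnd cl hcl (by omega)
    (fun r hr => hTb' r (Finset.mem_range.2 hr) h Mo hMo hnd hpos v hcop _ rfl) hpos.posF hbig
    hbigθ hsz hns (δr * Real.log N) Cq ε' ε' cE hCqp.le hcEp.le (hsm h Mo hMo hnd v hcop)
    (hspc h Mo hMo hnd hvln.2.2.2.1 H.b1 v hpt') hpt' (by linarith)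
    (by rw [hr₀2, hε'd]; apply le_of_eq; field_simp; ring)
    (by
      have e9 : 6144 * (cE * Cq) = (1 - s) * (ε₁ / 4 * βc Q (T * K) ε) / 2 := by
        rw [hcE]
        field_simp
      have e10 : 0 < (1 - s) * (ε₁ / 4 * βc Q (T * K) ε) := by positivity
      linarith) i₀
  refine le_trans ?_ hres
  have hvl := vv_low (h := h) (Mo := Mo) hRC hDge hα hαD (by omega) (by omega)
  have hBp := BD_pos (DB (2 * N) B₀)
  have hl0 : 0 < Real.log N := by linarith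
  have hbb : bb N B₀ (ε₁ / 4) ^ (T * K + 1) ≤ BD (DB (2 * N) B₀) ^ (T * K + 1) *
      (Real.log N) ^ (T * K + 1) := by
    unfold bb
    rw [← mul_pow]
    apply pow_le_pow_left₀ (by positivity)
    apply mul_le_mul_of_nonneg_left _ hBp.le
    have : ε₁ / 4 * Real.log N ≤ 1 * Real.log N :=
      mul_le_mul_of_nonneg_right (by linarith) hl0.le
    linarith
  have hbbp : 0 < bb N B₀ (ε₁ / 4) ^ (T * K + 1) := by
    unfold bb
    positivity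
  have hfin : 1 / 2 * (1 / (Real.log N) ^ (T * K + 1)) ≤
      Pool.Agent.W25.UN.VV α h Mo D (DB (2 * N) B₀) / bb N B₀ (ε₁ / 4) ^ (T * K + 1) := by
    rw [le_div_iff₀ hbbp]
    calc 1 / 2 * (1 / (Real.log N) ^ (T * K + 1)) * bb N B₀ (ε₁ / 4) ^ (T * K + 1) ≤
        1 / 2 * (1 / (Real.log N) ^ (T * K + 1)) * (BD (DB (2 * N) B₀) ^ (T * K + 1) *
          (Real.log N) ^ (T * K + 1)) := mul_le_mul_of_nonneg_left hbb (by positivity)
      _ = 1 / 2 * BD (DB (2 * N) B₀) ^ (T * K + 1) := by field_simp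
      _ ≤ _ := hvl
  calc cE / 2 / WW D * (N / (Real.log N) ^ (T * K + 1)) =
      cE * ((N : ℝ) / WW D * (1 / 2 * (1 / (Real.log N) ^ (T * K + 1)))) := by
        field_simp
    _ ≤ cE * ((N : ℝ) / WW D * (Pool.Agent.W25.UN.VV α h Mo D (DB (2 * N) B₀) /
        bb N B₀ (ε₁ / 4) ^ (T * K + 1))) := by
        apply mul_le_mul_of_nonneg_left _ hcEp.le
        exact mul_le_mul_of_nonneg_left hfin (by positivity)
    _ = _ := by ring

end Pool.Agent.Helper74.AE
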