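import Mathlib
import Pool.Agent.Helper74.AE.Asm
import Pool.Graph.R_seed8.Y827.GS.Final

/-! The coloured theorem with an explicit dependence on the modulus, unconditionally. -/

set_option autoImplicit false

namespace Pool.Agent.Helper74.AE

open Pool.Agent
open Pool.Agent.W25.UN Pool.Agent.W25.UB
open Pool.Agent.H442R2
open Pool.Agent.TH899.UG
open Pool.Agent.Y827.LS Pool.Agent.Y827.GS Pool.Agent.Y827.RO

theorem thmW : ThmW (fun _ => True) :=
  thmW_of hSML Pool.Agent.W398.UNFO.rc (r2bg (r2tr ttc)) hR2LF hEXM Pool.Agent.W505.UBGAU.main hFT3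
    (Pool.Agent.W308.UB.main hEXM) (flc3 Pool.Agent.W308.PL.FLW Pool.Agent.W655.PL.VLB)
    hSUM hMASH (Pool.Agent.W940.UBNWL.main Pool.Agent.W21.UN.main)
    Pool.Agent.W398.UNFO.sd hTWaH hTWbH
    (u0F hNWU) (l1F hNWU Pool.Agent.W469.UBNWE.main)
    (u2F hNWU Pool.Agent.W469.UBNWE.main)
    (udF hNWU Pool.Agent.W469.UBNWE.main) hNWU Pool.Agent.W469.UBNWE.main hVLNF

end Pool.Agent.Helper74.AE
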