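import Mathlib
import Pool.Agent.Helper74.AE.Thm
import Pool.Agent.Helper74.OR.Base

/-! The coloured theorem for a fixed family of linear forms, in every admissible class modulo `WW D`. -/

set_option autoImplicit false

namespace Pool.Agent.Helper74.AE

open Finset Filter Topology
open Pool.Agent.W25.UN
open Pool.Agent.W25.UB (CopAt)
open Pool.Agent.H410R2 (WW)
open Pool.Agent.TH899.UG
open Pool.Agent.TH899.UG.Uni
open Pool.Agent.Y827.LS
open Pool.Agent.Y827.GS
open Pool.Agent.Y827.RO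
open Pool.Agent.Helper74.OR (np_of)

theorem WW_pos (D : ℕ) : 0 < WW D := by
  rw [WW]; exact prod_pos fun p hp => (mem_filter.1 hp).2.pos

/-- a shift after which the class of `1` is the class of `v` -/
theorem shiftV {k : ℕ} (D : ℕ) (f : Fin k → ℤ × ℤ) (hne : ∀ i, (f i).1 ≠ 0) (v : ℕ)
    (hv : v < WW D)
    (hcop : ∀ p ∈ (Icc 1 D).filter Nat.Prime, ∀ i, ¬ (p : ℤ) ∣ (f i).1 * v + (f i).2) :
    ∃ s : ℕ, s ≤ WW D * (k + 3) ∧ (∀ i, (f i).2 + (f i).1 * s ≠ 0) ∧ s + 1 ≡ v [MOD WW D] ∧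
      CopAt (fun i => (f i).1) (fun i => (f i).2 + (f i).1 * s) D 0 1 := by
  classical
  have hW : 0 < WW D := WW_pos D
  obtain ⟨su, hsu⟩ : ∃ su : ℕ → ℕ, ∀ u, su u + 1 = v + WW D * (u + 1) :=
    ⟨fun u => v + WW D * (u + 1) - 1, fun u => by
      have h0 : 0 < WW D * (u + 1) := Nat.mul_pos hW (by omega)
      show v + WW D * (u + 1) - 1 + 1 = v + WW D * (u + 1)
      omega⟩
  have hinj : ∀ u u', su u = su u' → u = u' := by
    intro u u' h
    have h1 := hsu u
    have h2 := hsu u'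
    rw [h] at h1
    have h3 : WW D * (u + 1) = WW D * (u' + 1) := by omega
    have := Nat.eq_of_mul_eq_mul_left hW h3
    omega
  obtain ⟨u, hu, hune⟩ : ∃ u ∈ range (k + 1), ∀ i, (f i).2 + (f i).1 * (su u : ℕ) ≠ 0 := by
    by_contra hcon
    push Not at hcon
    have hch : ∀ u : ℕ, ∃ i : Option (Fin k), u ∈ range (k + 1) →
        ∃ j, i = some j ∧ (f j).2 + (f j).1 * (su u : ℕ) = 0 := by
      intro u
      by_cases hu : u ∈ range (k + 1)
      · obtain ⟨j, hj⟩ := hcon u hu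
        exact ⟨some j, fun _ => ⟨j, rfl, hj⟩⟩
      · exact ⟨none, fun h => absurd h hu⟩
    choose F hF using hch
    obtain ⟨x, hx, y, hy, hxy, he⟩ := Finset.exists_ne_map_eq_of_card_lt_of_maps_to
      (s := range (k + 1)) (t := (univ : Finset (Fin k)).image some) (f := F) (by
        rw [card_image_of_injective _ (Option.some_injective _), card_univ, Fintype.card_fin,
          card_range]
        omega) (by
        intro u hu
        obtain ⟨j, hj, _⟩ := hF u (mem_coe.1 hu)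
        rw [hj]
        exact mem_coe.2 (mem_image_of_mem _ (mem_univ j)))
    obtain ⟨j, hj1, hj2⟩ := hF x hx
    obtain ⟨j', hj1', hj2'⟩ := hF y hy
    rw [hj1, hj1'] at he
    have he' : j = j' := Option.some_injective _ he
    subst he'
    apply hxy
    apply hinj
    have h1 : (f j).1 * ((su x : ℕ) : ℤ) = (f j).1 * ((su y : ℕ) : ℤ) := by linarith
    exact_mod_cast mul_left_cancel₀ (hne j) h1
  have hsv : su u + 1 ≡ v [MOD WW D] := by
    rw [hsu u]
    exact (Nat.modEq_iff_dvd' (Nat.le_add_right _ _)).2 ⟨u + 1, by omega⟩ |>.symm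
  refine ⟨su u, ?_, hune, hsv, ?_⟩
  · have h1 := hsu u
    have h3 : u + 1 ≤ k + 1 := by have := mem_range.1 hu; omega
    have h4 : WW D * (u + 1) ≤ WW D * (k + 1) := Nat.mul_le_mul_left _ h3
    have h5 : WW D * (k + 3) = WW D * (k + 1) + 2 * WW D := by ring
    omega
  · intro j n hn
    have eW : ((WW D : ℕ) : ℤ) = ∏ p ∈ (Icc 1 D).filter Nat.Prime, (p : ℤ) := by
      rw [WW]; push_cast; rfl
    rw [eW]
    refine IsCoprime.prod_right fun p hp => ?_
    have hpp0 := (mem_filter.1 hp).2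
    have hpp := Nat.prime_iff_prime_int.1 hpp0
    have hpWn : p ∣ WW D := by rw [WW]; exact dvd_prod_of_mem _ hp
    have hpW : (p : ℤ) ∣ ((WW D : ℕ) : ℤ) := Int.natCast_dvd_natCast.2 hpWn
    have hn1 : (p : ℤ) ∣ n - 1 := by
      have h1 := (Int.modEq_iff_dvd.1 hn.symm)
      exact hpW.trans (by exact_mod_cast h1)
    refine (hpp.coprime_iff_not_dvd.2 ?_).symm
    rcases j with _ | i
    · intro hd
      have h1 : (p : ℤ) ∣ n := by
        have : uB (fun i => (f i).1) none * n + wB (fun i => (f i).2 + (f i).1 * (su u : ℕ)) 0 none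
            = n := by simp [uB, wB]
        rwa [this] at hd
      have h2 : (p : ℤ) ∣ 1 := by
        have := dvd_sub h1 hn1
        rwa [sub_sub_cancel] at this
      exact hpp.not_isUnit (isUnit_of_dvd_one h2)
    · intro hd
      have e0 : uB (fun i => (f i).1) (some i) * n +
          wB (fun i => (f i).2 + (f i).1 * (su u : ℕ)) 0 (some i) =
          (f i).1 * (n + (su u : ℕ)) + (f i).2 := by
        simp only [uB, wB]
        push_cast
        ring
      rw [e0] at hd
      apply hcop p hp i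
      have h1 : (p : ℤ) ∣ (n + (su u : ℕ)) - v := by
        have h2 : (p : ℤ) ∣ ((su u + 1 : ℕ) : ℤ) - v := by
          have h3 : (p : ℤ) ∣ ((WW D : ℕ) : ℤ) := hpW
          exact h3.trans (Nat.modEq_iff_dvd.1 hsv.symm)
        have h4 := dvd_add hn1 h2
        have e : n - 1 + (((su u + 1 : ℕ) : ℤ) - v) = (n + (su u : ℕ)) - v := by push_cast; ring
        rwa [e] at h4
      have e1 : (f i).1 * (v : ℤ) + (f i).2 = ((f i).1 * (n + (su u : ℕ)) + (f i).2) -
          (f i).1 * ((n + (su u : ℕ)) - v) := by ring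
      rw [e1]
      exact dvd_sub hd (dvd_mul_of_dvd_right h1 _)

open Classical in
/-- **the coloured theorem in classes** -/
theorem lamW (T M : ℕ) (hT : 1 ≤ T) (hTM : (18 / 5 : ℝ) * M < T) : ∃ K : ℕ, 1 ≤ K ∧ ∃ δ : ℝ,
    0 < δ ∧ ∃ D₀ : ℕ, ∃ c : ℝ, 0 < c ∧ ∀ f : Fin T → Fin K → ℤ × ℤ,
    Function.Injective (fun x : Fin T × Fin K => f x.1 x.2) →
    (∀ g i, 0 < (f g i).1 ∧ IsCoprime (f g i).1 (f g i).2) →
    ∀ D : ℕ, D₀ ≤ D → (∀ g i, (f g i).1.natAbs ≤ D) → ∀ v : ℕ, v < WW D →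
    (∀ p ∈ (Icc 1 D).filter Nat.Prime, ∀ g i, ¬ (p : ℤ) ∣ (f g i).1 * v + (f g i).2) →
    ∃ s : ℕ, s ≤ WW D * (T * K + 3) ∧ (∀ g i, (f g i).2 + (f g i).1 * s ≠ 0) ∧
      ∀ᶠ N : ℕ in atTop, ∃ (S : Finset (Fin T)) (σ : Fin T → Fin K), M + 1 ≤ S.card ∧
        c * (N / (WW D * (Real.log N) ^ (T * K + 1))) ≤
          (((Rs f δ s S σ N).filter (fun n => n ≡ v [MOD WW D])).card : ℝ) := by
  obtain ⟨K, hK, δ, hδ, D₀, c, hc, H⟩ := thmW T M hT hTM
  set P : ℕ := 2 ^ T * K ^ T with hP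
  have hP0 : 0 < P := by rw [hP]; positivity
  refine ⟨K, by omega, δ / 2, by positivity, D₀, c / P, by positivity, ?_⟩
  intro f hinj hpos D hD hslope v hv hcop
  set k : ℕ := T * K with hk
  have : NeZero K := ⟨by omega⟩
  have hW : 0 < WW D := WW_pos D
  have hWr : (0 : ℝ) < WW D := by exact_mod_cast hW
  obtain ⟨s, hs1, hs2, hsv, hs3⟩ := shiftV D (fun i : Fin (T * K) => f (cl i) (sx i))
    (fun i => (hpos _ _).1.ne') v hv (fun p hp i => hcop p hp _ _)
  set a : Fin (T * K) → ℤ := fun i => (f (cl i) (sx i)).1 with ha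
  set h : Fin (T * K) → ℤ := fun i => (f (cl i) (sx i)).2 + (f (cl i) (sx i)).1 * s with hh
  have h2 := H D hD a cl Pool.Agent.TH899.UG.Uni.card_cl (fun _ => trivial)
    (fun i => (hpos _ _).1.ne') (fun i => hslope _ _)
  have hsix : ∀ g i, (f g i).2 + (f g i).1 * s ≠ 0 := by
    intro g i
    have h5 := hs2 (ix g i)
    have e1 : cl (ix g i) = g := cl_ix g i
    have e2 : sx (ix g i) = i := by
      unfold sx ix
      rw [Equiv.symm_apply_apply]
    simp only [e1, e2] at h5
    exact h5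
  refine ⟨s, hs1, hsix, ?_⟩
  filter_upwards [h2, eventually_ge_atTop (64 * (∑ i, (h i).natAbs + s)),
    eventually_ge_atTop 3] with N hN2 hN4 hN3
  have hN1 : 1 ≤ N := by omega
  have hlogN : 0 < Real.log N := Real.log_pos (by exact_mod_cast (by omega : 1 < N))
  have hNpos : (0 : ℝ) < N := by exact_mod_cast hN1
  have hhN : ∀ i, 64 * |h i| ≤ (N : ℤ) := by
    intro i
    have h5 : (h i).natAbs ≤ ∑ i, (h i).natAbs :=
      Finset.single_le_sum (f := fun i => (h i).natAbs) (fun _ _ => Nat.zero_le _) (mem_univ i)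
    have h6 : 64 * (h i).natAbs ≤ N := le_trans (by omega) hN4
    rw [Int.abs_eq_natAbs]
    exact_mod_cast h6
  have hsN : (s : ℝ) ≤ N / 64 := by
    have h6 : 64 * s ≤ N := le_trans (by omega) hN4
    have h7 : (64 : ℝ) * s ≤ N := by exact_mod_cast h6
    linarith
  have hHB : HB h 0 N := by
    intro i
    have h5 := hhN i
    have h6 : (0 : ℤ) ≤ |h i| := abs_nonneg _
    rw [Nat.cast_zero, zero_add]
    have h7 : (0 : ℤ) ≤ N := Nat.cast_nonneg _
    linarith
  have hNd : Nd a h 0 := by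
    intro j l hjl
    rcases j with _ | j <;> rcases l with _ | l
    · exact absurd rfl hjl
    · simp only [uB, wB]
      have := hs2 l
      intro h0
      apply this
      have h5 : h l = 0 := by push_cast at h0; linarith
      exact h5
    · simp only [uB, wB]
      have := hs2 j
      intro h0
      apply this
      have h5 : h j = 0 := by push_cast at h0; linarith
      exact h5
    · have hne : j ≠ l := fun h => hjl (by rw [h])
      simp only [uB, wB]
      have hfne : f (cl j) (sx j) ≠ f (cl l) (sx l) := by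
        intro h5
        apply hne
        have h6 := hinj (a₁ := (cl j, sx j)) (a₂ := (cl l, sx l)) h5
        have h7 := Prod.ext_iff.1 h6
        rw [← ix_cl j, ← ix_cl l]
        simp only at h7
        rw [h7.1, h7.2]
      have := np_of (hpos (cl j) (sx j)) (hpos (cl l) (sx l)) hfne
      intro h0
      apply this
      push_cast at h0
      simp only [ha, hh] at h0
      linarith
  have hPR : PosR a h 0 N := by
    intro i x hx1 hx2
    have h5 : (64 : ℝ) * |(h i : ℝ)| ≤ N := by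
      have : ((64 * |h i| : ℤ) : ℝ) ≤ ((N : ℤ) : ℝ) := by exact_mod_cast hhN i
      push_cast at this
      exact this
    have h6 := neg_abs_le (h i : ℝ)
    have h7 : (1 : ℝ) ≤ a i := by exact_mod_cast (hpos (cl i) (sx i)).1
    have h8 : x ≤ a i * x := le_mul_of_one_le_left (by linarith [hx1, hNpos]) h7
    push_cast
    linarith
  have hmain := hN2 h 0 hHB hNd hPR 1 hs3
  -- pigeonhole
  set Q : Finset (Finset (Fin T) × (Fin T → Fin K)) := univ.filter (fun q => M + 1 ≤ q.1.card)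
    with hQ
  set B : Finset (Fin T) × (Fin T → Fin K) → Finset ℕ := fun q => (Icc 1 N).filter (fun n : ℕ =>
    n ≡ 1 [MOD (WW D)] ∧
    (N : ℝ) / 16 ≤ n ∧ (n : ℝ) ≤ N / 2 ∧ (∀ p : ℕ, p.Prime → Real.log p ≤ δ * Real.log N → ∀ q,
          ¬ p ∣ LZ (uB a) (wB h 0) q n) ∧
    ∀ g ∈ q.1, (Fm a h 0 (ix g (q.2 g)) n).toNat.Prime) with hB
  have hsub : (Icc 1 N).filter (fun n : ℕ => n ≡ 1 [MOD (WW D)] ∧
        (N : ℝ) / 16 ≤ n ∧ (n : ℝ) ≤ N / 2 ∧
        (∀ p : ℕ, p.Prime → Real.log p ≤ δ * Real.log N → ∀ q,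
          ¬ p ∣ LZ (uB a) (wB h 0) q n) ∧
        M + 1 ≤ (univ.filter (fun g : Fin T => ∃ i, cl i = g ∧
          (Fm a h 0 i n).toNat.Prime)).card) ⊆ Q.biUnion B := by
    intro n hn
    rw [mem_filter] at hn
    obtain ⟨hn1, hn0, hn3, hn4, hn6, hn5⟩ := hn
    set S : Finset (Fin T) := univ.filter (fun g : Fin T => ∃ i, cl i = g ∧
          (Fm a h 0 i n).toNat.Prime) with hS
    have hex : ∀ g : Fin T, ∃ s : Fin K, g ∈ S → (Fm a h 0 (ix g s) n).toNat.Prime := by
      intro g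
      by_cases hg : g ∈ S
      · obtain ⟨i, hi1, hi2⟩ := (mem_filter.1 hg).2
        refine ⟨sx i, fun _ => ?_⟩
        rw [← hi1, ix_cl]
        exact hi2
      · exact ⟨0, fun h => absurd h hg⟩
    choose σ hσ using hex
    exact mem_biUnion.2 ⟨(S, σ), mem_filter.2 ⟨mem_univ _, hn5⟩,
      mem_filter.2 ⟨hn1, hn0, hn3, hn4, hn6, fun g hg => hσ g hg⟩⟩
  set Y : ℝ := N / (WW D * (Real.log N) ^ (T * K + 1)) with hY
  have hY0 : 0 < Y := by positivity
  have hmain' : c * Y ≤ (((Icc 1 N).filter (fun n : ℕ => n ≡ 1 [MOD (WW D)] ∧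
        (N : ℝ) / 16 ≤ n ∧ (n : ℝ) ≤ N / 2 ∧
        (∀ p : ℕ, p.Prime → Real.log p ≤ δ * Real.log N → ∀ q,
          ¬ p ∣ LZ (uB a) (wB h 0) q n) ∧
        M + 1 ≤ (univ.filter (fun g : Fin T => ∃ i, cl i = g ∧
          (Fm a h 0 i n).toNat.Prime)).card)).card : ℝ) := by
    refine le_trans (le_of_eq ?_) hmain
    rw [hY]
    field_simp
    rw [hk]
  have hbig : ∃ q ∈ Q, c / P * Y ≤ ((B q).card : ℝ) := by
    by_contra hcon
    push Not at hcon
    have e1 := (Nat.cast_le (α := ℝ)).2 ((card_le_card hsub).trans card_biUnion_le)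
    rw [Nat.cast_sum] at e1
    have e3 : Q.card ≤ P := by
      refine (card_le_univ _).trans ?_
      rw [Fintype.card_prod, Fintype.card_finset, Fintype.card_fun, Fintype.card_fin,
        Fintype.card_fin]
    have e4 : (Q.card : ℝ) ≤ P := by exact_mod_cast e3
    have hPr : (0 : ℝ) < P := by exact_mod_cast hP0
    rcases Q.eq_empty_or_nonempty with hQe | hQne
    · rw [hQe, Finset.sum_empty] at e1
      have := hmain'.trans e1
      nlinarith
    · have e2 : ∑ q ∈ Q, ((B q).card : ℝ) < ∑ _q ∈ Q, c / P * Y :=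
        Finset.sum_lt_sum_of_nonempty hQne hcon
      rw [Finset.sum_const, nsmul_eq_mul] at e2
      have e5 : (Q.card : ℝ) * (c / P * Y) ≤ P * (c / P * Y) :=
        mul_le_mul_of_nonneg_right e4 (by positivity)
      have e6 : (P : ℝ) * (c / P * Y) = c * Y := by
        field_simp
      rw [e6] at e5
      have := hmain'.trans e1
      linarith
  obtain ⟨⟨S, σ⟩, hq, hbig⟩ := hbig
  refine ⟨S, σ, (mem_filter.1 hq).2, hbig.trans ?_⟩
  rw [Nat.cast_le, ← card_image_of_injective (B (S, σ)) (add_left_injective s)]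
  apply card_le_card
  intro m hm
  obtain ⟨n, hn, rfl⟩ := mem_image.1 hm
  obtain ⟨hn1, hnv, hn0, hn2, hn4, hn3⟩ := mem_filter.1 hn
  rw [mem_Icc] at hn1
  have hns : ((n + s : ℕ) : ℝ) ≤ N := by push_cast; linarith
  have hδN : ∀ p : ℕ, Real.log p ≤ δ / 2 * Real.log N → Real.log p ≤ δ * Real.log N := by
    intro p h5
    have : 0 < δ * Real.log N := by positivity
    linarith
  have hmv : n + s ≡ v [MOD WW D] := by
    have h5 : n + s ≡ 1 + s [MOD WW D] := Nat.ModEq.add_right s hnv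
    rw [Nat.add_comm 1 s] at h5
    exact h5.trans hsv
  rw [mem_filter]
  refine ⟨?_, hmv⟩
  unfold Rs
  rw [mem_filter, mem_Icc]
  refine ⟨⟨by omega, by exact_mod_cast hns⟩, ?_, ?_, ?_, fun g hg => ?_⟩
  · push_cast
    have : (0 : ℝ) ≤ s := Nat.cast_nonneg s
    linarith
  · intro p hp hpl hd
    apply hn4 p hp (hδN p hpl) none
    unfold LZ
    simp only [uB, wB]
    have e3 : ((n + s : ℕ) : ℤ) - s = 1 * (n : ℤ) + 0 := by push_cast; ring
    rw [e3] at hd
    exact Int.natCast_dvd.1 hd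
  · intro g i p hp hpl hd
    apply hn4 p hp (hδN p hpl) (some (ix g i))
    unfold LZ
    have e1 : cl (ix g i) = g := cl_ix g i
    have e2 : sx (ix g i) = i := by
      unfold sx ix
      rw [Equiv.symm_apply_apply]
    simp only [uB, wB, ha, hh]
    rw [e1, e2]
    have e3 : (f g i).1 * ((n + s : ℕ) : ℤ) + (f g i).2 =
        (f g i).1 * (n : ℤ) + (((0 : ℕ) : ℤ) + ((f g i).2 + (f g i).1 * s)) := by push_cast; ring
    rw [e3] at hd
    exact Int.natCast_dvd.1 hd
  · have h5 := hn3 g hg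
    have h6 : Fm a h 0 (ix g (σ g)) n = (f g (σ g)).1 * ((n + s : ℕ) : ℤ) + (f g (σ g)).2 := by
      unfold Fm
      simp only [ha, hh]
      have e1 : cl (ix g (σ g)) = g := cl_ix g (σ g)
      have e2 : sx (ix g (σ g)) = σ g := by
        unfold sx ix
        rw [Equiv.symm_apply_apply]
      rw [e1, e2]
      push_cast
      ring
    rw [h6] at h5
    exact h5

end Pool.Agent.Helper74.AE
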