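import Mathlib
import Pool.Agent.Helper74.OR.Cls
import Pool.Agent.Helper74.AE.Lam

/-! Rough values of a family of linear forms in residue classes to multiples of `WW D`: an upper bound which
is uniform in `D`. -/

set_option autoImplicit false

namespace Pool.Agent.Helper74.AE

open Finset Filter Topology
open Pool.Agent.Y959.Sv (nu up_sieve)
open Pool.Agent.Helper923.HMertens (mertens_ratio)
open Pool.Agent.Y827.HD (Qf Qf_per nu_eq floor_pow' omega_le)
open Pool.Agent.Helper74.OR (Rg prodE prime_dvd_prod_mem np_of)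
open Pool.Agent.H410R2 (WW)

/-- the family together with `n - s` -/
def Fs (V : Finset (ℤ × ℤ)) (s : ℕ) : Finset (ℤ × ℤ) := insert ((1 : ℤ), -(s : ℤ)) V

theorem Fs_card {V : Finset (ℤ × ℤ)} {s : ℕ} (h : ∀ f ∈ V, f.2 + f.1 * s ≠ 0) :
    (Fs V s).card = V.card + 1 := by
  have hnot : ((1 : ℤ), -(s : ℤ)) ∉ V := by
    intro h'
    apply h _ h'
    simp
  unfold Fs
  rw [card_insert_of_notMem hnot]

theorem WW_le (D : ℕ) : WW D ≤ 4 ^ D := by
  refine le_trans ?_ (primorial_le_four_pow D)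
  unfold WW primorial
  apply Finset.prod_le_prod_of_subset_of_one_le'
  · intro p hp
    rw [mem_filter, mem_Icc] at hp
    rw [mem_filter, mem_range]
    exact ⟨by omega, hp.2⟩
  · intro p hp _
    exact (mem_filter.1 hp).2.one_le

theorem prime_dvd_WW {p D : ℕ} (hp : p.Prime) (h : p ∣ WW D) : p ≤ D := by
  unfold WW at h
  have := prime_dvd_prod_mem (fun q hq => (mem_filter.1 hq).2) hp h
  exact (mem_Icc.1 (mem_filter.1 this).1).2

/-- **the class bound, uniform in `D`** -/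
theorem clsW (V : Finset (ℤ × ℤ)) (hV : ∀ f ∈ V, 0 < f.1 ∧ IsCoprime f.1 f.2) (δ : ℝ) (hδ : 0 < δ)
    (k : ℕ) (hk : k = V.card + 1) :
    ∃ C : ℝ, 0 < C ∧ ∃ D₁ : ℕ, 2 ≤ D₁ ∧ ∀ D : ℕ, D₁ ≤ D → ∀ s : ℕ, s ≤ WW D * (V.card + 3) →
      (∀ f ∈ V, f.2 + f.1 * s ≠ 0) → ∀ᶠ N : ℕ in atTop, ∀ S : Finset ℕ,
      (∀ p ∈ S, p.Prime ∧ D < p) → ((∏ p ∈ S, p : ℕ) : ℝ) ≤ 4 * (N : ℝ) ^ (7 / 10 : ℝ) → ∀ r : ℕ,
      (((Rg (Fs V s) δ N).filter (fun n => n ≡ r [MOD WW D * ∏ p ∈ S, p])).card : ℝ) ≤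
        C * Real.log D ^ k *
          (Real.exp k ^ S.card * (N / (WW D * ((∏ p ∈ S, p : ℕ) : ℝ) * Real.log N ^ k))) := by
  classical
  obtain ⟨K, z0, hK, hup⟩ := up_sieve k
  obtain ⟨C1, hC0, hC1⟩ := mertens_ratio
  have hK0 : (1 : ℝ) ≤ K := by exact_mod_cast hK
  set κ : ℝ := min δ (1 / (8 * K)) with hκ
  have hκ0 : 0 < κ := lt_min hδ (by positivity)
  set AV : ℕ := 1 + ∑ f ∈ V, (f.1.natAbs + f.2.natAbs) with hAV
  set C2 : ℝ := 2 * V.card * (Real.log (AV * (k + 3)) + Real.log 4) with hC2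
  have hAV1 : (1 : ℝ) ≤ AV := by
    have : 1 ≤ AV := by omega
    exact_mod_cast this
  have hlA : 0 ≤ Real.log (AV * (k + 3)) := by
    apply Real.log_nonneg
    have : (0 : ℝ) ≤ k := Nat.cast_nonneg k
    nlinarith
  have hl4 : 0 ≤ Real.log 4 := Real.log_nonneg (by norm_num)
  have hC20 : 0 ≤ C2 := by positivity
  set C : ℝ := 2 * (Real.exp (k * (2 * C1 + C2)) * (2 / κ) ^ k) + 2 * 2 ^ k with hC
  refine ⟨C, by positivity, z0 + k + 2 + ∑ f ∈ V, f.1.natAbs +
    ∑ f ∈ V, ∑ g ∈ V, (f.1 * g.2 - g.1 * f.2).natAbs, by omega, ?_⟩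
  intro D hD s hs hsV
  have hF2 : ∀ f ∈ V, ∀ g ∈ V, f ≠ g → f.1 * g.2 - g.1 * f.2 ≠ 0 :=
    fun f hf g hg h => np_of (hV f hf) (hV g hg) h
  have hD2 : 2 ≤ D := by omega
  have hDr2 : (2 : ℝ) ≤ D := by exact_mod_cast hD2
  have hlogD : 1 / 2 ≤ Real.log D := by
    have h1 := Real.log_two_gt_d9
    have h2 := Real.log_le_log (by norm_num) hDr2
    linarith
  have hWpos : 0 < WW D := WW_pos D
  have hWr : (1 : ℝ) ≤ WW D := by exact_mod_cast hWpos
  have hLf : ∀ p : ℕ, p.Prime → D < p → ∀ f ∈ V, ¬ (p : ℤ) ∣ f.1 := by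
    intro p hp hpL f hf hd
    have h1 : p ≤ f.1.natAbs :=
      Nat.le_of_dvd (Int.natAbs_pos.2 (hV f hf).1.ne') (Int.natCast_dvd.1 hd)
    have h2 : f.1.natAbs ≤ ∑ f ∈ V, f.1.natAbs :=
      Finset.single_le_sum (f := fun f : ℤ × ℤ => f.1.natAbs) (fun _ _ => Nat.zero_le _) hf
    omega
  have hLfg : ∀ p : ℕ, p.Prime → D < p → ∀ f ∈ V, ∀ g ∈ V, f ≠ g →
      ¬ (p : ℤ) ∣ f.1 * g.2 - g.1 * f.2 := by
    intro p hp hpL f hf g hg hne hd
    have h1 : p ≤ (f.1 * g.2 - g.1 * f.2).natAbs :=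
      Nat.le_of_dvd (Int.natAbs_pos.2 (hF2 f hf g hg hne)) (Int.natCast_dvd.1 hd)
    have h2 : (f.1 * g.2 - g.1 * f.2).natAbs ≤ ∑ g ∈ V, (f.1 * g.2 - g.1 * f.2).natAbs :=
      Finset.single_le_sum (f := fun g : ℤ × ℤ => (f.1 * g.2 - g.1 * f.2).natAbs)
        (fun _ _ => Nat.zero_le _) hg
    have h3 : ∑ g ∈ V, (f.1 * g.2 - g.1 * f.2).natAbs ≤
        ∑ f ∈ V, ∑ g ∈ V, (f.1 * g.2 - g.1 * f.2).natAbs :=
      Finset.single_le_sum (f := fun f : ℤ × ℤ => ∑ g ∈ V, (f.1 * g.2 - g.1 * f.2).natAbs)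
        (fun _ _ => Nat.zero_le _) hf
    omega
  have tN : Tendsto (fun N : ℕ => (N : ℝ)) atTop atTop := tendsto_natCast_atTop_atTop
  have e4 : ∀ᶠ N : ℕ in atTop, Real.log N ^ k ≤ (N : ℝ) ^ (1 / 8 : ℝ) := by
    have h1 : (fun x : ℝ => Real.log x ^ k) =o[atTop] (fun x : ℝ => x ^ (1 / 8 : ℝ)) := by
      have := isLittleO_log_rpow_rpow_atTop (k : ℝ) (show (0 : ℝ) < 1 / 8 by norm_num)
      simpa [Real.rpow_natCast] using this
    have h2 := (h1.bound (show (0 : ℝ) < 1 by norm_num))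
    filter_upwards [tN.eventually h2, eventually_ge_atTop 1] with X hX hX1
    have hlog : 0 ≤ Real.log (X : ℝ) := Real.log_natCast_nonneg X
    rw [Real.norm_of_nonneg (by positivity), Real.norm_of_nonneg (by positivity), one_mul] at hX
    exact hX
  have e5 : ∀ᶠ N : ℕ in atTop, (2 : ℝ) ≤ (N : ℝ) ^ (1 / 8 : ℝ) :=
    ((tendsto_rpow_atTop (by norm_num : (0 : ℝ) < 1 / 8)).comp tN).eventually_ge_atTop 2
  have e6 : ∀ᶠ N : ℕ in atTop, (4 * WW D : ℝ) ≤ (N : ℝ) ^ (1 / 20 : ℝ) :=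
    ((tendsto_rpow_atTop (by norm_num : (0 : ℝ) < 1 / 20)).comp tN).eventually_ge_atTop _
  filter_upwards [e4, e5, e6, floor_pow' hκ0 (D + 3), eventually_ge_atTop 3]
    with N hN4 hN5 hN6 hNy hN3
  intro S hS hSN r
  have hSp : ∀ p ∈ S, p.Prime := fun p hp => (hS p hp).1
  obtain ⟨hy1, hy2⟩ := hNy
  set y : ℕ := ⌊(N : ℝ) ^ κ⌋₊ with hy
  set Ps : ℕ := ∏ p ∈ S, p with hPs
  have hPs1 : 1 ≤ Ps := Nat.pos_of_ne_zero (prod_ne_zero_iff.2 fun p hp => (hSp p hp).ne_zero)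
  set Q : ℕ := WW D * Ps with hQ
  have hQ1 : 1 ≤ Q := Nat.mul_pos hWpos hPs1
  have hQr : (1 : ℝ) ≤ Q := by exact_mod_cast hQ1
  have hNr : (3 : ℝ) ≤ N := by exact_mod_cast hN3
  have hN0 : (0 : ℝ) < N := by linarith
  have hlogN : 0 < Real.log N := Real.log_pos (by linarith)
  have hQN : (Q : ℝ) ≤ (N : ℝ) ^ (3 / 4 : ℝ) := by
    rw [hQ]
    push_cast
    calc (WW D : ℝ) * (Ps : ℝ) ≤ WW D * (4 * (N : ℝ) ^ (7 / 10 : ℝ)) := by gcongr
      _ = (4 * WW D) * (N : ℝ) ^ (7 / 10 : ℝ) := by ring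
      _ ≤ (N : ℝ) ^ (1 / 20 : ℝ) * (N : ℝ) ^ (7 / 10 : ℝ) := by gcongr
      _ = (N : ℝ) ^ (3 / 4 : ℝ) := by rw [← Real.rpow_add hN0]; norm_num
  set X : ℕ := N / Q with hX
  have hND : (N : ℝ) ^ (1 / 4 : ℝ) ≤ N / Q := by
    rw [le_div_iff₀ (by linarith)]
    calc (N : ℝ) ^ (1 / 4 : ℝ) * Q ≤ (N : ℝ) ^ (1 / 4 : ℝ) * (N : ℝ) ^ (3 / 4 : ℝ) := by gcongr
      _ = N := by
        rw [← Real.rpow_add hN0]
        norm_num
  have hq : (N : ℝ) ^ (1 / 4 : ℝ) = (N : ℝ) ^ (1 / 8 : ℝ) * (N : ℝ) ^ (1 / 8 : ℝ) := by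
    rw [← Real.rpow_add hN0]; norm_num
  have hXr : (N : ℝ) / Q - 1 ≤ X := by
    have h1 : (N : ℝ) < (X + 1) * Q := by
      have h0 := Nat.lt_mul_div_succ N hQ1
      rw [mul_comm] at h0
      exact_mod_cast h0
    have h2 : (N : ℝ) / Q < X + 1 := by
      rw [div_lt_iff₀ (by linarith)]; exact h1
    linarith
  have hXle : (X : ℝ) ≤ N / Q := Nat.cast_div_le
  -- the level
  have hyr : (y : ℝ) ≤ (N : ℝ) ^ κ := Nat.floor_le (by positivity)
  have hLy : D ≤ y := by omega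
  have hy3 : 3 ≤ y := by omega
  have hyK : y ^ K ≤ X := by
    have h1 : ((y ^ K : ℕ) : ℝ) ≤ (N : ℝ) ^ (1 / 8 : ℝ) := by
      push_cast
      calc (y : ℝ) ^ K ≤ ((N : ℝ) ^ κ) ^ K := pow_le_pow_left₀ (Nat.cast_nonneg _) hyr K
        _ = (N : ℝ) ^ (κ * K) := by rw [← Real.rpow_natCast, ← Real.rpow_mul hN0.le]
        _ ≤ (N : ℝ) ^ (1 / 8 : ℝ) := by
          apply Real.rpow_le_rpow_of_exponent_le (by linarith)
          have : κ ≤ 1 / (8 * K) := min_le_right _ _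
          calc κ * K ≤ 1 / (8 * K) * K := by gcongr
            _ = 1 / 8 := by field_simp
    have h2 : ((y ^ K : ℕ) : ℝ) ≤ X := by nlinarith
    exact_mod_cast h2
  -- the exceptional primes
  set Es : Finset ℕ := V.biUnion (fun f => ((Ioc D y).filter Nat.Prime).filter
    (fun p : ℕ => (p : ℤ) ∣ f.2 + f.1 * s)) with hEs
  have hEsum : ∑ p ∈ Es, (1 : ℝ) / p ≤ C2 := by
    have hEc : (Es.card : ℝ) ≤ D * C2 := by
      have h1 : (Es.card : ℝ) ≤ ∑ f ∈ V, ((((((Ioc D y).filter Nat.Prime).filter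
          (fun p : ℕ => (p : ℤ) ∣ f.2 + f.1 * s)).card : ℕ)) : ℝ) := by
        exact_mod_cast card_biUnion_le
      have h2 : ∀ f ∈ V, ((((((Ioc D y).filter Nat.Prime).filter
          (fun p : ℕ => (p : ℤ) ∣ f.2 + f.1 * s)).card : ℕ)) : ℝ) ≤
          2 * (Real.log (AV * (k + 3)) + D * Real.log 4) := by
        intro f hf
        have h3 := omega_le (f.2 + f.1 * s) (hsV f hf) (((Ioc D y).filter Nat.Prime).filter
          (fun p : ℕ => (p : ℤ) ∣ f.2 + f.1 * s)) (by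
            intro p hp
            obtain ⟨h4, h5⟩ := mem_filter.1 hp
            exact ⟨(mem_filter.1 h4).2, h5⟩)
        refine h3.trans ?_
        have h4 : |((f.2 + f.1 * s : ℤ) : ℝ)| ≤ AV * (k + 3) * 4 ^ D := by
          have h5 : (f.2 + f.1 * (s : ℤ)).natAbs ≤ f.2.natAbs + f.1.natAbs * s := by
            calc (f.2 + f.1 * (s : ℤ)).natAbs ≤ f.2.natAbs + (f.1 * (s : ℤ)).natAbs :=
                  Int.natAbs_add_le _ _
              _ = _ := by rw [Int.natAbs_mul, Int.natAbs_natCast]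
          have h6 : f.1.natAbs + f.2.natAbs ≤ ∑ f ∈ V, (f.1.natAbs + f.2.natAbs) :=
            Finset.single_le_sum (f := fun f : ℤ × ℤ => f.1.natAbs + f.2.natAbs)
              (fun _ _ => Nat.zero_le _) hf
          have h7 : f.2.natAbs + f.1.natAbs * s ≤ AV * (s + 1) := by
            have e1 : f.1.natAbs * s ≤ AV * s := Nat.mul_le_mul_right _ (by omega)
            have e2 : AV * (s + 1) = AV * s + AV := by ring
            omega
          have h8 : s + 1 ≤ WW D * (k + 3) := by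
            have e3 : WW D * (k + 3) = WW D * (V.card + 3) + WW D := by rw [hk]; ring
            omega
          have h9 : AV * (s + 1) ≤ AV * (k + 3) * 4 ^ D := by
            calc AV * (s + 1) ≤ AV * (WW D * (k + 3)) := Nat.mul_le_mul_left _ h8
              _ ≤ AV * (4 ^ D * (k + 3)) := by gcongr; exact WW_le D
              _ = _ := by ring
          have h10 : (f.2 + f.1 * (s : ℤ)).natAbs ≤ AV * (k + 3) * 4 ^ D := h5.trans (h7.trans h9)
          have h11 : (((f.2 + f.1 * (s : ℤ)).natAbs : ℕ) : ℝ) ≤ ((AV * (k + 3) * 4 ^ D : ℕ) : ℝ) := by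
            exact_mod_cast h10
          rw [Nat.cast_natAbs] at h11
          push_cast at h11 ⊢
          exact h11
        have h5 : 0 < |((f.2 + f.1 * s : ℤ) : ℝ)| := abs_pos.2 (by exact_mod_cast hsV f hf)
        have h6 := Real.log_le_log h5 h4
        rw [Real.log_mul (by positivity) (by positivity), Real.log_pow] at h6
        linarith
      refine h1.trans ((sum_le_sum h2).trans ?_)
      rw [sum_const, nsmul_eq_mul, hC2]
      have hD1 : (1 : ℝ) ≤ D := by linarith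
      have hc0 : (0 : ℝ) ≤ V.card := Nat.cast_nonneg _
      have h7 : Real.log (AV * (k + 3)) + D * Real.log 4 ≤
          D * (Real.log (AV * (k + 3)) + Real.log 4) := by
        have : 1 * Real.log (AV * (k + 3)) ≤ D * Real.log (AV * (k + 3)) :=
          mul_le_mul_of_nonneg_right hD1 hlA
        linarith
      calc (V.card : ℝ) * (2 * (Real.log (AV * (k + 3)) + D * Real.log 4)) ≤
            V.card * (2 * (D * (Real.log (AV * (k + 3)) + Real.log 4))) := by gcongr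
        _ = _ := by ring
    calc ∑ p ∈ Es, (1 : ℝ) / p ≤ ∑ _p ∈ Es, (1 : ℝ) / D := by
          apply sum_le_sum
          intro p hp
          obtain ⟨f, hf, hp1⟩ := mem_biUnion.1 hp
          have h3 := (mem_Ioc.1 (mem_filter.1 (mem_filter.1 hp1).1).1).1
          apply one_div_le_one_div_of_le (by linarith)
          exact_mod_cast h3.le
      _ = Es.card / D := by rw [sum_const, nsmul_eq_mul, mul_one_div]
      _ ≤ C2 := by
          rw [div_le_iff₀ (by linarith)]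
          linarith
  set r0 : ℕ := r % Q with hr0
  set F' : Finset (ℤ × ℤ) := (Fs V s).image
    (fun f => (f.1 * (Q : ℤ), f.1 * (r0 : ℤ) + f.2)) with hF'
  have hinj : Set.InjOn (fun f : ℤ × ℤ => (f.1 * (Q : ℤ), f.1 * (r0 : ℤ) + f.2)) (Fs V s) := by
    intro f _ g _ h
    have hDi : (Q : ℤ) ≠ 0 := by exact_mod_cast (by omega : Q ≠ 0)
    obtain ⟨h1, h2⟩ := Prod.ext_iff.1 h
    simp only at h1 h2
    have h3 : f.1 = g.1 := mul_right_cancel₀ hDi h1
    rw [h3] at h2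
    exact Prod.ext h3 (by linarith)
  have hcard : F'.card = k := by rw [hF', card_image_of_injOn hinj, Fs_card hsV, hk]
  set P : Finset ℕ := (Ioc D y).filter Nat.Prime \ (S ∪ Es) with hP
  have hPm : ∀ p ∈ P, p.Prime ∧ D < p ∧ p ≤ y ∧ p ∉ S ∧ ∀ f ∈ V, ¬ (p : ℤ) ∣ f.2 + f.1 * s := by
    intro p hp
    obtain ⟨hp1, hpS⟩ := mem_sdiff.1 hp
    obtain ⟨hp2, hpp⟩ := mem_filter.1 hp1
    obtain ⟨hp3, hp4⟩ := mem_Ioc.1 hp2
    rw [mem_union, not_or] at hpS
    refine ⟨hpp, hp3, hp4, hpS.1, fun f hf hd => hpS.2 ?_⟩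
    exact mem_biUnion.2 ⟨f, hf, mem_filter.2 ⟨hp1, hd⟩⟩
  have hnu : ∀ p ∈ P, nu (Qf F') p = k := by
    intro p hp
    obtain ⟨hpp, hp3, hp4, hpS, hpE⟩ := hPm p hp
    have hpi : Prime (p : ℤ) := Nat.prime_iff_prime_int.1 hpp
    have hpQ : ¬ (p : ℤ) ∣ (Q : ℤ) := by
      intro h
      have h1 : p ∣ Q := by exact_mod_cast h
      rcases (Nat.Prime.dvd_mul hpp).1 h1 with h2 | h2
      · have := prime_dvd_WW hpp h2
        omega
      · exact hpS (prime_dvd_prod_mem hSp hpp h2)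
    rw [← hcard]
    apply nu_eq F' hpp
    · intro f' hf' hd
      obtain ⟨f, hf, rfl⟩ := mem_image.1 hf'
      rcases hpi.dvd_or_dvd hd with h | h
      · unfold Fs at hf
        rcases mem_insert.1 hf with rfl | hf
        · exact hpi.not_isUnit (isUnit_of_dvd_one h)
        · exact hLf p hpp hp3 f hf h
      · exact hpQ h
    · intro f' hf' g' hg' hne hd
      obtain ⟨f, hf, rfl⟩ := mem_image.1 hf'
      obtain ⟨g, hg, rfl⟩ := mem_image.1 hg'
      have hfg : f ≠ g := fun h => hne (by rw [h])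
      have e : f.1 * (Q : ℤ) * (g.1 * (r0 : ℤ) + g.2) - g.1 * (Q : ℤ) * (f.1 * (r0 : ℤ) + f.2) =
          (Q : ℤ) * (f.1 * g.2 - g.1 * f.2) := by ring
      simp only at hd
      rw [e] at hd
      rcases hpi.dvd_or_dvd hd with h | h
      · exact hpQ h
      · unfold Fs at hf hg
        rcases mem_insert.1 hf with rfl | hf <;> rcases mem_insert.1 hg with rfl | hg
        · exact hfg rfl
        · apply hpE g hg
          have e2 : (1 : ℤ) * g.2 - g.1 * -(s : ℤ) = g.2 + g.1 * s := by ring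
          rwa [e2] at h
        · apply hpE f hf
          have e2 : f.1 * -(s : ℤ) - 1 * f.2 = -(f.2 + f.1 * s) := by ring
          rw [e2] at h
          exact (dvd_neg).1 h
        · exact hLfg p hpp hp3 f hf g hg hfg h
  have key := hup y X hy3 hyK (Qf F') (Qf_per F') P (by
    intro p hp
    obtain ⟨hpp, hp3, hp4, hpS, -⟩ := hPm p hp
    exact ⟨hpp, by omega, hp4, (hnu p hp).le⟩)
  have hprod : ∏ p ∈ P, (1 - (nu (Qf F') p : ℝ) / p) = ∏ p ∈ P, (1 - (k : ℝ) / p) :=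
    prod_congr rfl fun p hp => by rw [hnu p hp]
  rw [hprod] at key
  have hprod2 := prodE hC0 hC1 k D y hD2 (by omega) hLy (S ∪ Es)
  have hlogy : Real.log y ≤ δ * Real.log N := by
    have hy0 : (0 : ℝ) < y := by exact_mod_cast (by omega : 0 < y)
    calc Real.log y ≤ Real.log ((N : ℝ) ^ κ) := Real.log_le_log hy0 hyr
      _ = κ * Real.log N := Real.log_rpow hN0 _
      _ ≤ δ * Real.log N := mul_le_mul_of_nonneg_right (min_le_left _ _) hlogN.le
  -- the set
  have hset : (((Rg (Fs V s) δ N).filter (fun n => n ≡ r [MOD Q])).card : ℝ) ≤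
      (((Icc 1 X).filter (fun n : ℕ => ∀ p ∈ P, ¬ Qf F' p n)).card : ℝ) + 1 := by
    have h1 : ((Rg (Fs V s) δ N).filter (fun n => n ≡ r [MOD Q])).card ≤
        (insert 0 ((Icc 1 X).filter (fun n : ℕ => ∀ p ∈ P, ¬ Qf F' p n))).card := by
      apply card_le_card_of_injOn (fun n => n / Q)
      · intro n hn
        rw [mem_coe, mem_filter] at hn
        obtain ⟨hn1, hn2⟩ := hn
        unfold Rg at hn1
        rw [mem_filter, mem_Icc] at hn1
        rw [mem_coe, mem_insert, mem_filter, mem_Icc]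
        rcases Nat.eq_zero_or_pos (n / Q) with h0 | h0
        · exact Or.inl h0
        · refine Or.inr ⟨⟨h0, Nat.div_le_div_right hn1.1.2⟩, ?_⟩
          intro p hp
          rintro ⟨f', hf', hd⟩
          obtain ⟨f, hf, rfl⟩ := mem_image.1 hf'
          obtain ⟨hpp, hp3, hp4, hpS, -⟩ := hPm p hp
          have hp0 : (0 : ℝ) < p := by exact_mod_cast hpp.pos
          refine hn1.2 f hf p hpp ((Real.log_le_log hp0 (by exact_mod_cast hp4)).trans hlogy) ?_
          have hn3 : (n : ℤ) = Q * ((n / Q : ℕ) : ℤ) + r0 := by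
            have h := Nat.div_add_mod n Q
            have h2 : n % Q = r0 := hn2
            rw [h2] at h
            exact_mod_cast h.symm
          rw [hn3]
          have e : f.1 * ((Q : ℤ) * ((n / Q : ℕ) : ℤ) + r0) + f.2 =
              f.1 * Q * ((n / Q : ℕ) : ℤ) + (f.1 * r0 + f.2) := by ring
          rw [e]
          exact hd
      · intro n hn m hm hnm
        rw [mem_coe, mem_filter] at hn hm
        have h2 : n % Q = m % Q := hn.2.trans hm.2.symm
        have h3 : n / Q = m / Q := hnm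
        rw [← Nat.div_add_mod n Q, ← Nat.div_add_mod m Q, h2, h3]
    have h2 := h1.trans (card_insert_le _ _)
    exact_mod_cast h2
  -- the bound
  have hw0 : (0 : ℝ) ≤ N / Q := by positivity
  set w : ℝ := √((N : ℝ) / Q) with hw
  have hww : w * w = N / Q := Real.mul_self_sqrt hw0
  have hwu : (N : ℝ) ^ (1 / 8 : ℝ) ≤ w := by
    apply Real.le_sqrt_of_sq_le
    rw [sq, ← hq]
    exact hND
  have hw2 : 1 ≤ w := by linarith
  have hlk : 0 < Real.log N ^ k := by positivity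
  set Y : ℝ := (N : ℝ) / (WW D * (Ps : ℝ) * Real.log N ^ k) with hY
  have hYQ : Y = N / (Q * Real.log N ^ k) := by rw [hY, hQ]; push_cast; rfl
  have hwl : w ≤ Y := by
    rw [hYQ, ← div_div, le_div_iff₀ hlk, ← hww]
    exact mul_le_mul_of_nonneg_left (hN4.trans hwu) (by linarith)
  have hsX : √(X : ℝ) ≤ w := Real.sqrt_le_sqrt hXle
  have hE1 : (1 : ℝ) ≤ Real.exp k ^ S.card := one_le_pow₀ (Real.one_le_exp (Nat.cast_nonneg _))
  have hY0 : 0 ≤ Y := by positivity
  have hprod3 : ∏ p ∈ P, (1 - (k : ℝ) / p) ≤ Real.exp k ^ S.card *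
      (Real.exp (k * (2 * C1 + C2)) * (2 / κ) ^ k * Real.log D ^ k) / Real.log N ^ k := by
    refine hprod2.trans ?_
    have h1 : Real.exp (k * (2 * C1 + ∑ p ∈ S ∪ Es, (1 : ℝ) / p)) ≤
        Real.exp (k * (2 * C1 + C2)) * Real.exp k ^ S.card := by
      rw [← Real.exp_nat_mul, ← Real.exp_add]
      apply Real.exp_le_exp.2
      have h2 : ∑ p ∈ S, (1 : ℝ) / p ≤ S.card := by
        calc ∑ p ∈ S, (1 : ℝ) / p ≤ ∑ _p ∈ S, (1 : ℝ) := by
              apply sum_le_sum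
              intro p hp
              have : (1 : ℝ) ≤ p := by exact_mod_cast (hSp p hp).one_le
              rw [div_le_one (by linarith)]
              exact this
          _ = S.card := by simp
      have h2' : ∑ p ∈ S ∪ Es, (1 : ℝ) / p ≤ ∑ p ∈ S, (1 : ℝ) / p + ∑ p ∈ Es, (1 : ℝ) / p := by
        rw [← sum_union_inter]
        have : 0 ≤ ∑ p ∈ S ∩ Es, (1 : ℝ) / p := sum_nonneg fun p _ => by positivity
        linarith
      have h3 : (0 : ℝ) ≤ k := Nat.cast_nonneg k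
      have h4 : ∑ p ∈ S ∪ Es, (1 : ℝ) / p ≤ S.card + C2 := by linarith
      have h5 := mul_le_mul_of_nonneg_left h4 h3
      linarith
    have h2 : (Real.log D / Real.log y) ^ k ≤ (2 / κ) ^ k * Real.log D ^ k / Real.log N ^ k := by
      rw [← mul_pow, ← div_pow]
      apply pow_le_pow_left₀
      · have : 0 ≤ Real.log y := Real.log_natCast_nonneg y
        positivity
      · have h3 : 0 < κ / 2 * Real.log N := by positivity
        rw [div_le_div_iff₀ (by linarith) (by positivity)]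
        have h4 := mul_le_mul_of_nonneg_left hy2 (show (0 : ℝ) ≤ Real.log D by linarith)
        calc Real.log D * Real.log N = 2 / κ * (Real.log D * (κ / 2 * Real.log N)) := by
              field_simp
          _ ≤ 2 / κ * (Real.log D * Real.log y) := by gcongr
          _ = _ := by ring
    calc Real.exp (k * (2 * C1 + ∑ p ∈ S ∪ Es, (1 : ℝ) / p)) * (Real.log D / Real.log y) ^ k
        ≤ (Real.exp (k * (2 * C1 + C2)) * Real.exp k ^ S.card) *
          ((2 / κ) ^ k * Real.log D ^ k / Real.log N ^ k) := by gcongr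
      _ = _ := by ring
  have hDk : 0 < Real.log D ^ k := by positivity
  have hmain : (X : ℝ) * ∏ p ∈ P, (1 - (k : ℝ) / p) ≤
      Real.exp k ^ S.card * (Real.exp (k * (2 * C1 + C2)) * (2 / κ) ^ k * Real.log D ^ k) * Y := by
    calc (X : ℝ) * ∏ p ∈ P, (1 - (k : ℝ) / p) ≤ (X : ℝ) * (Real.exp k ^ S.card *
          (Real.exp (k * (2 * C1 + C2)) * (2 / κ) ^ k * Real.log D ^ k) / Real.log N ^ k) := by
          gcongr
      _ ≤ (N / Q) * (Real.exp k ^ S.card *
          (Real.exp (k * (2 * C1 + C2)) * (2 / κ) ^ k * Real.log D ^ k) / Real.log N ^ k) := by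
          gcongr
      _ = _ := by rw [hYQ]; field_simp
  have hQE : Y ≤ Real.exp k ^ S.card * Y := le_mul_of_one_le_left hY0 hE1
  have h2k : (1 : ℝ) ≤ 2 ^ k * Real.log D ^ k := by
    rw [← mul_pow]
    exact one_le_pow₀ (by linarith)
  have hZ0 : 0 ≤ Real.exp k ^ S.card * Y := by positivity
  calc (((Rg (Fs V s) δ N).filter (fun n => n ≡ r [MOD Q])).card : ℝ)
      ≤ 2 * (X * ∏ p ∈ P, (1 - (k : ℝ) / p)) + √(X : ℝ) + 1 := by linarith
    _ ≤ 2 * (Real.exp k ^ S.card *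
          (Real.exp (k * (2 * C1 + C2)) * (2 / κ) ^ k * Real.log D ^ k) * Y) +
        2 * ((2 ^ k * Real.log D ^ k) * (Real.exp k ^ S.card * Y)) := by
        have h3 := mul_le_mul_of_nonneg_right h2k hZ0
        linarith
    _ = C * Real.log D ^ k * (Real.exp k ^ S.card * Y) := by rw [hC]; ring

end Pool.Agent.Helper74.AE
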