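import Mathlib
import Pool.Agent.Helper74.AE.AsmP
import Pool.Agent.Helper74.AE.AsmQ

/-! The coloured theorems with almost primes and an explicit dependence on the modulus, unconditionally. -/

set_option autoImplicit false

namespace Pool.Agent.Helper74.AE

open Pool.Agent
open Pool.Agent.W25.UN Pool.Agent.W25.UB
open Pool.Agent.H442R2
open Pool.Agent.TH899.UG
open Pool.Agent.Y827.LS Pool.Agent.Y827.GS Pool.Agent.Y827.RO Pool.Agent.Z296.AP

theorem thmPW : ThmPW (fun _ => True) :=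
  thmPW_of hSML Pool.Agent.W493.UN.WD.main Pool.Agent.W398.UNFO.rc (r2bg (r2tr ttc)) hR2LF hEXM
    Pool.Agent.W505.UBGAU.main hFT3
    (Pool.Agent.W308.UB.main hEXM) (flc3 Pool.Agent.W308.PL.FLW Pool.Agent.W655.PL.VLB)
    hSUM hMASH (Pool.Agent.W940.UBNWL.main Pool.Agent.W21.UN.main)
    Pool.Agent.W398.UNFO.sd hTWaH hTWbH
    (u0F hNWU) (l1F hNWU Pool.Agent.W469.UBNWE.main)
    (u2F hNWU Pool.Agent.W469.UBNWE.main)
    (udF hNWU Pool.Agent.W469.UBNWE.main) hNWU Pool.Agent.W469.UBNWE.main hVLNF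

theorem thmQW : ThmQW (fun _ => True) :=
  thmQW_of hSML Pool.Agent.W493.UN.WD.main Pool.Agent.W398.UNFO.rc (r2bg (r2tr ttc)) hR2LF hEXM
    Pool.Agent.W505.UBGAU.main hFT3
    (Pool.Agent.W308.UB.main hEXM) (flc3 Pool.Agent.W308.PL.FLW Pool.Agent.W655.PL.VLB)
    hSUM hMASH (Pool.Agent.W940.UBNWL.main Pool.Agent.W21.UN.main)
    Pool.Agent.W398.UNFO.sd hTWbH
    (u0F hNWU) (l1F hNWU Pool.Agent.W469.UBNWE.main)
    (u2F hNWU Pool.Agent.W469.UBNWE.main)
    (udF hNWU Pool.Agent.W469.UBNWE.main) hNWU Pool.Agent.W469.UBNWE.main hVLNF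

end Pool.Agent.Helper74.AE
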