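import Mathlib
import Pool.Agent.Helper74.AE.ThmPQ
import Pool.Agent.Helper74.AE.Lam

/-! The coloured theorems with almost primes in every group for a fixed family of linear forms, in every
admissible class modulo `WW D`. -/

set_option autoImplicit false

namespace Pool.Agent.Helper74.AE

open Finset Filter Topology
open Pool.Agent.W25.UN
open Pool.Agent.W25.UB (CopAt)
open Pool.Agent.H410R2 (WW)
open Pool.Agent.TH899.UG
open Pool.Agent.TH899.UG.Uni
open Pool.Agent.Y827.LS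
open Pool.Agent.Y827.GS
open Pool.Agent.Y827.RO
open Pool.Agent.Z296.AP (P2)
open Pool.Agent.Helper74.OR (np_of)

/-- the `n ≤ N` at which all the forms `f g i`, and `n - s`, are free of primes `≤ N ^ δ`, the forms
`f g (τ g)` have at most two prime factors and the forms `f g (σ g)`, `g ∈ S`, are prime -/
noncomputable def Rp {T K : ℕ} (f : Fin T → Fin K → ℤ × ℤ) (δ : ℝ) (s : ℕ) (S : Finset (Fin T))
    (σ τ : Fin T → Fin K) (N : ℕ) : Finset ℕ := by
  classical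
  exact (Icc 1 N).filter (fun n : ℕ => (N : ℝ) / 16 ≤ n ∧
    (∀ p : ℕ, p.Prime → Real.log p ≤ δ * Real.log N → ¬ (p : ℤ) ∣ (n : ℤ) - s) ∧
    (∀ g i, ∀ p : ℕ, p.Prime → Real.log p ≤ δ * Real.log N →
      ¬ (p : ℤ) ∣ (f g i).1 * n + (f g i).2) ∧
    (∀ g, P2 ((f g (τ g)).1 * (n : ℤ) + (f g (τ g)).2)) ∧
    ∀ g ∈ S, ((f g (σ g)).1 * (n : ℤ) + (f g (σ g)).2).toNat.Prime)

open Classical in
/-- the common part: from classes of the abstract forms to the family `f` -/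
theorem lam_of {T K : ℕ} (hK : 1 ≤ K) [NeZero K] {δ c : ℝ} (hδ : 0 < δ) (hc : 0 < c) (D : ℕ)
    (Pr : (Fin (T * K) → Prop) → Prop)
    (Qσ : (Finset (Fin T)) → (Fin T → Fin K) → Prop)
    (hPr : ∀ pr : Fin (T * K) → Prop, Pr pr → ∃ S : Finset (Fin T), ∃ σ : Fin T → Fin K,
      Qσ S σ ∧ ∀ g ∈ S, pr (ix g (σ g)))
    (H : ∀ (α : Fin (T * K) → ℤ), (∀ i, α i ≠ 0) → (∀ i, (α i).natAbs ≤ D) →
      ∀ᶠ N : ℕ in atTop, ∀ (h : Fin (T * K) → ℤ) (Mo : ℕ), HB h Mo N →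
      Nd α h Mo → PosR α h Mo N → ∀ v : ℕ, CopAt α h D Mo v →
      c / WW D * (N / (Real.log N) ^ (T * K + 1)) ≤
        (((Icc 1 N).filter (fun n : ℕ => n ≡ v [MOD (WW D)] ∧
        (N : ℝ) / 16 ≤ n ∧ (n : ℝ) ≤ N / 2 ∧
        (∀ p : ℕ, p.Prime → Real.log p ≤ δ * Real.log N → ∀ q,
          ¬ p ∣ LZ (uB α) (wB h Mo) q n) ∧
        (∀ g : Fin T, ∃ i, cl i = g ∧ P2 (Fm α h Mo i n)) ∧
        Pr (fun i => (Fm α h Mo i n).toNat.Prime))).card : ℝ))
    (f : Fin T → Fin K → ℤ × ℤ)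
    (hinj : Function.Injective (fun x : Fin T × Fin K => f x.1 x.2))
    (hpos : ∀ g i, 0 < (f g i).1 ∧ IsCoprime (f g i).1 (f g i).2)
    (hslope : ∀ g i, (f g i).1.natAbs ≤ D) (v : ℕ) (hv : v < WW D)
    (hcop : ∀ p ∈ (Icc 1 D).filter Nat.Prime, ∀ g i, ¬ (p : ℤ) ∣ (f g i).1 * v + (f g i).2) :
    ∃ s : ℕ, s ≤ WW D * (T * K + 3) ∧ (∀ g i, (f g i).2 + (f g i).1 * s ≠ 0) ∧
      ∀ᶠ N : ℕ in atTop, ∃ (S : Finset (Fin T)) (σ τ : Fin T → Fin K), Qσ S σ ∧
        c / (2 ^ T * K ^ T * K ^ T : ℕ) * (N / (WW D * (Real.log N) ^ (T * K + 1))) ≤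
          (((Rp f (δ / 2) s S σ τ N).filter (fun n => n ≡ v [MOD WW D])).card : ℝ) := by
  set P : ℕ := 2 ^ T * K ^ T * K ^ T with hP
  have hP0 : 0 < P := by rw [hP]; positivity
  have hW : 0 < WW D := WW_pos D
  have hWr : (0 : ℝ) < WW D := by exact_mod_cast hW
  obtain ⟨s, hs1, hs2, hsv, hs3⟩ := shiftV D (fun i : Fin (T * K) => f (cl i) (sx i))
    (fun i => (hpos _ _).1.ne') v hv (fun p hp i => hcop p hp _ _)
  set a : Fin (T * K) → ℤ := fun i => (f (cl i) (sx i)).1 with ha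
  set h : Fin (T * K) → ℤ := fun i => (f (cl i) (sx i)).2 + (f (cl i) (sx i)).1 * s with hh
  have h2 := H a (fun i => (hpos _ _).1.ne') (fun i => hslope _ _)
  have hsix : ∀ g i, (f g i).2 + (f g i).1 * s ≠ 0 := by
    intro g i
    have h5 := hs2 (ix g i)
    have e1 : cl (ix g i) = g := cl_ix g i
    have e2 : sx (ix g i) = i := by
      unfold sx ix
      rw [Equiv.symm_apply_apply]
    simp only [e1, e2] at h5
    exact h5
  refine ⟨s, hs1, hsix, ?_⟩
  filter_upwards [h2, eventually_ge_atTop (64 * (∑ i, (h i).natAbs + s)),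
    eventually_ge_atTop 3] with N hN2 hN4 hN3
  have hN1 : 1 ≤ N := by omega
  have hlogN : 0 < Real.log N := Real.log_pos (by exact_mod_cast (by omega : 1 < N))
  have hNpos : (0 : ℝ) < N := by exact_mod_cast hN1
  have hhN : ∀ i, 64 * |h i| ≤ (N : ℤ) := by
    intro i
    have h5 : (h i).natAbs ≤ ∑ i, (h i).natAbs :=
      Finset.single_le_sum (f := fun i => (h i).natAbs) (fun _ _ => Nat.zero_le _) (mem_univ i)
    have h6 : 64 * (h i).natAbs ≤ N := le_trans (by omega) hN4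
    rw [Int.abs_eq_natAbs]
    exact_mod_cast h6
  have hsN : (s : ℝ) ≤ N / 64 := by
    have h6 : 64 * s ≤ N := le_trans (by omega) hN4
    have h7 : (64 : ℝ) * s ≤ N := by exact_mod_cast h6
    linarith
  have hHB : HB h 0 N := by
    intro i
    have h5 := hhN i
    have h6 : (0 : ℤ) ≤ |h i| := abs_nonneg _
    rw [Nat.cast_zero, zero_add]
    have h7 : (0 : ℤ) ≤ N := Nat.cast_nonneg _
    linarith
  have hNd : Nd a h 0 := by
    intro j l hjl
    rcases j with _ | j <;> rcases l with _ | l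
    · exact absurd rfl hjl
    · simp only [uB, wB]
      have := hs2 l
      intro h0
      apply this
      have h5 : h l = 0 := by push_cast at h0; linarith
      exact h5
    · simp only [uB, wB]
      have := hs2 j
      intro h0
      apply this
      have h5 : h j = 0 := by push_cast at h0; linarith
      exact h5
    · have hne : j ≠ l := fun h => hjl (by rw [h])
      simp only [uB, wB]
      have hfne : f (cl j) (sx j) ≠ f (cl l) (sx l) := by
        intro h5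
        apply hne
        have h6 := hinj (a₁ := (cl j, sx j)) (a₂ := (cl l, sx l)) h5
        have h7 := Prod.ext_iff.1 h6
        rw [← ix_cl j, ← ix_cl l]
        simp only at h7
        rw [h7.1, h7.2]
      have := np_of (hpos (cl j) (sx j)) (hpos (cl l) (sx l)) hfne
      intro h0
      apply this
      push_cast at h0
      simp only [ha, hh] at h0
      linarith
  have hPR : PosR a h 0 N := by
    intro i x hx1 hx2
    have h5 : (64 : ℝ) * |(h i : ℝ)| ≤ N := by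
      have : ((64 * |h i| : ℤ) : ℝ) ≤ ((N : ℤ) : ℝ) := by exact_mod_cast hhN i
      push_cast at this
      exact this
    have h6 := neg_abs_le (h i : ℝ)
    have h7 : (1 : ℝ) ≤ a i := by exact_mod_cast (hpos (cl i) (sx i)).1
    have h8 : x ≤ a i * x := le_mul_of_one_le_left (by linarith [hx1, hNpos]) h7
    push_cast
    linarith
  have hmain := hN2 h 0 hHB hNd hPR 1 hs3
  -- pigeonhole
  set B : Finset (Fin T) × (Fin T → Fin K) × (Fin T → Fin K) → Finset ℕ := fun q =>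
    (Icc 1 N).filter (fun n : ℕ =>
    n ≡ 1 [MOD (WW D)] ∧
    (N : ℝ) / 16 ≤ n ∧ (n : ℝ) ≤ N / 2 ∧ (∀ p : ℕ, p.Prime → Real.log p ≤ δ * Real.log N → ∀ q,
          ¬ p ∣ LZ (uB a) (wB h 0) q n) ∧
    (∀ g, P2 (Fm a h 0 (ix g (q.2.2 g)) n)) ∧
    ∀ g ∈ q.1, (Fm a h 0 (ix g (q.2.1 g)) n).toNat.Prime) with hB
  set QQ : Finset (Finset (Fin T) × (Fin T → Fin K) × (Fin T → Fin K)) :=
    univ.filter (fun q => Qσ q.1 q.2.1) with hQQ
  have hsub : (Icc 1 N).filter (fun n : ℕ => n ≡ 1 [MOD (WW D)] ∧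
        (N : ℝ) / 16 ≤ n ∧ (n : ℝ) ≤ N / 2 ∧
        (∀ p : ℕ, p.Prime → Real.log p ≤ δ * Real.log N → ∀ q,
          ¬ p ∣ LZ (uB a) (wB h 0) q n) ∧
        (∀ g : Fin T, ∃ i, cl i = g ∧ P2 (Fm a h 0 i n)) ∧
        Pr (fun i => (Fm a h 0 i n).toNat.Prime)) ⊆ QQ.biUnion B := by
    intro n hn
    rw [mem_filter] at hn
    obtain ⟨hn1, hn0, hn3, hn4, hn6, hn7, hn5⟩ := hn
    obtain ⟨S, σ, hS1, hS2⟩ := hPr _ hn5
    have hex : ∀ g : Fin T, ∃ s : Fin K, P2 (Fm a h 0 (ix g s) n) := by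
      intro g
      obtain ⟨i, hi1, hi2⟩ := hn7 g
      refine ⟨sx i, ?_⟩
      rw [← hi1, ix_cl]
      exact hi2
    choose τ hτ using hex
    exact mem_biUnion.2 ⟨(S, σ, τ), mem_filter.2 ⟨mem_univ _, hS1⟩,
      mem_filter.2 ⟨hn1, hn0, hn3, hn4, hn6, hτ, hS2⟩⟩
  set Y : ℝ := N / (WW D * (Real.log N) ^ (T * K + 1)) with hY
  have hY0 : 0 < Y := by positivity
  have hmain' : c * Y ≤ (((Icc 1 N).filter (fun n : ℕ => n ≡ 1 [MOD (WW D)] ∧
        (N : ℝ) / 16 ≤ n ∧ (n : ℝ) ≤ N / 2 ∧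
        (∀ p : ℕ, p.Prime → Real.log p ≤ δ * Real.log N → ∀ q,
          ¬ p ∣ LZ (uB a) (wB h 0) q n) ∧
        (∀ g : Fin T, ∃ i, cl i = g ∧ P2 (Fm a h 0 i n)) ∧
        Pr (fun i => (Fm a h 0 i n).toNat.Prime))).card : ℝ) := by
    refine le_trans (le_of_eq ?_) hmain
    rw [hY]
    field_simp
  have hbig : ∃ q ∈ QQ, c / P * Y ≤ ((B q).card : ℝ) := by
    by_contra hcon
    push Not at hcon
    have e1 := (Nat.cast_le (α := ℝ)).2 ((card_le_card hsub).trans card_biUnion_le)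
    rw [Nat.cast_sum] at e1
    have e3 : QQ.card ≤ P := by
      refine (card_le_univ _).trans ?_
      rw [Fintype.card_prod, Fintype.card_prod, Fintype.card_finset, Fintype.card_fun, Fintype.card_fin,
        Fintype.card_fin, hP, mul_assoc]
    have e4 : (QQ.card : ℝ) ≤ P := by exact_mod_cast e3
    have hPr : (0 : ℝ) < P := by exact_mod_cast hP0
    rcases QQ.eq_empty_or_nonempty with hQe | hQne
    · rw [hQe, Finset.sum_empty] at e1
      have := hmain'.trans e1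
      nlinarith
    · have e2 : ∑ q ∈ QQ, ((B q).card : ℝ) < ∑ _q ∈ QQ, c / P * Y :=
        Finset.sum_lt_sum_of_nonempty hQne hcon
      rw [Finset.sum_const, nsmul_eq_mul] at e2
      have e5 : (QQ.card : ℝ) * (c / P * Y) ≤ P * (c / P * Y) :=
        mul_le_mul_of_nonneg_right e4 (by positivity)
      have e6 : (P : ℝ) * (c / P * Y) = c * Y := by
        field_simp
      rw [e6] at e5
      have := hmain'.trans e1
      linarith
  obtain ⟨⟨S, σ, τ⟩, hq, hbig⟩ := hbig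
  refine ⟨S, σ, τ, (mem_filter.1 hq).2, hbig.trans ?_⟩
  rw [Nat.cast_le, ← card_image_of_injective (B (S, σ, τ)) (add_left_injective s)]
  apply card_le_card
  intro m hm
  obtain ⟨n, hn, rfl⟩ := mem_image.1 hm
  obtain ⟨hn1, hnv, hn0, hn2, hn4, hn7, hn3⟩ := mem_filter.1 hn
  rw [mem_Icc] at hn1
  have hns : ((n + s : ℕ) : ℝ) ≤ N := by push_cast; linarith
  have hδN : ∀ p : ℕ, Real.log p ≤ δ / 2 * Real.log N → Real.log p ≤ δ * Real.log N := by
    intro p h5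
    have : 0 < δ * Real.log N := by positivity
    linarith
  have hmv : n + s ≡ v [MOD WW D] := by
    have h5 : n + s ≡ 1 + s [MOD WW D] := Nat.ModEq.add_right s hnv
    rw [Nat.add_comm 1 s] at h5
    exact h5.trans hsv
  have hFm : ∀ g j, Fm a h 0 (ix g j) n = (f g j).1 * ((n + s : ℕ) : ℤ) + (f g j).2 := by
    intro g j
    unfold Fm
    simp only [ha, hh]
    have e1 : cl (ix g j) = g := cl_ix g j
    have e2 : sx (ix g j) = j := by
      unfold sx ix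
      rw [Equiv.symm_apply_apply]
    rw [e1, e2]
    push_cast
    ring
  rw [mem_filter]
  refine ⟨?_, hmv⟩
  unfold Rp
  rw [mem_filter, mem_Icc]
  refine ⟨⟨by omega, by exact_mod_cast hns⟩, ?_, ?_, ?_, fun g => ?_, fun g hg => ?_⟩
  · push_cast
    have : (0 : ℝ) ≤ s := Nat.cast_nonneg s
    linarith
  · intro p hp hpl hd
    apply hn4 p hp (hδN p hpl) none
    unfold LZ
    simp only [uB, wB]
    have e3 : ((n + s : ℕ) : ℤ) - s = 1 * (n : ℤ) + 0 := by push_cast; ring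
    rw [e3] at hd
    exact Int.natCast_dvd.1 hd
  · intro g i p hp hpl hd
    apply hn4 p hp (hδN p hpl) (some (ix g i))
    unfold LZ
    have e1 : cl (ix g i) = g := cl_ix g i
    have e2 : sx (ix g i) = i := by
      unfold sx ix
      rw [Equiv.symm_apply_apply]
    simp only [uB, wB, ha, hh]
    rw [e1, e2]
    have e3 : (f g i).1 * ((n + s : ℕ) : ℤ) + (f g i).2 =
        (f g i).1 * (n : ℤ) + (((0 : ℕ) : ℤ) + ((f g i).2 + (f g i).1 * s)) := by push_cast; ring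
    rw [e3] at hd
    exact Int.natCast_dvd.1 hd
  · have h5 := hn7 g
    rwa [hFm] at h5
  · have h5 := hn3 g hg
    rwa [hFm] at h5

open Classical in
/-- **the coloured theorem with almost primes in every group, in classes** -/
theorem lamPW (T M : ℕ) (hT : 1 ≤ T) (hTM : (18 / 5 : ℝ) * M < T) : ∃ K : ℕ, 1 ≤ K ∧ ∃ δ : ℝ,
    0 < δ ∧ ∃ D₀ : ℕ, ∃ c : ℝ, 0 < c ∧ ∀ f : Fin T → Fin K → ℤ × ℤ,
    Function.Injective (fun x : Fin T × Fin K => f x.1 x.2) →
    (∀ g i, 0 < (f g i).1 ∧ IsCoprime (f g i).1 (f g i).2) →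
    ∀ D : ℕ, D₀ ≤ D → (∀ g i, (f g i).1.natAbs ≤ D) → ∀ v : ℕ, v < WW D →
    (∀ p ∈ (Icc 1 D).filter Nat.Prime, ∀ g i, ¬ (p : ℤ) ∣ (f g i).1 * v + (f g i).2) →
    ∃ s : ℕ, s ≤ WW D * (T * K + 3) ∧ (∀ g i, (f g i).2 + (f g i).1 * s ≠ 0) ∧
      ∀ᶠ N : ℕ in atTop, ∃ (S : Finset (Fin T)) (σ τ : Fin T → Fin K), M + 1 ≤ S.card ∧
        c * (N / (WW D * (Real.log N) ^ (T * K + 1))) ≤
          (((Rp f δ s S σ τ N).filter (fun n => n ≡ v [MOD WW D])).card : ℝ) := by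
  obtain ⟨K, hK, δ, hδ, D₀, c, hc, H⟩ := thmPW T T M le_rfl hTM
  have : NeZero K := ⟨by omega⟩
  refine ⟨K, by omega, δ / 2, by positivity, D₀, c / (2 ^ T * K ^ T * K ^ T : ℕ), by
    have : 0 < 2 ^ T * K ^ T * K ^ T := by positivity
    positivity, ?_⟩
  intro f hinj hpos D hD hslope v hv hcop
  apply lam_of (by omega) hδ hc D
    (fun pr => M + 1 ≤ ((univ : Finset (Fin T)).filter (fun g => ∃ i, cl i = g ∧ pr i)).card)
    (fun S σ => M + 1 ≤ S.card) _ _ f hinj hpos hslope v hv hcop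
  · intro pr hpr
    set S : Finset (Fin T) := (univ : Finset (Fin T)).filter (fun g => ∃ i, cl i = g ∧ pr i) with hS
    have hex : ∀ g : Fin T, ∃ s : Fin K, g ∈ S → pr (ix g s) := by
      intro g
      by_cases hg : g ∈ S
      · obtain ⟨i, hi1, hi2⟩ := (mem_filter.1 hg).2
        refine ⟨sx i, fun _ => ?_⟩
        rw [← hi1, ix_cl]
        exact hi2
      · exact ⟨0, fun h => absurd h hg⟩
    choose σ hσ using hex
    exact ⟨S, σ, hpr, hσ⟩
  · intro α hα hαD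
    filter_upwards [H D hD α cl Pool.Agent.TH899.UG.Uni.card_cl (fun _ => trivial) hα hαD] with N hN
    intro h Mo h1 h2 h3 v h4
    convert hN h Mo h1 h2 h3 v h4 univ (by rw [card_univ, Fintype.card_fin])

open Classical in
/-- **a prescribed prime form and almost primes in every group, in classes** -/
theorem lamQW (T : ℕ) (hT : 1 ≤ T) : ∃ K : ℕ, 1 ≤ K ∧ ∃ δ : ℝ,
    0 < δ ∧ ∃ D₀ : ℕ, ∃ c : ℝ, 0 < c ∧ ∀ f : Fin T → Fin K → ℤ × ℤ,
    Function.Injective (fun x : Fin T × Fin K => f x.1 x.2) →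
    (∀ g i, 0 < (f g i).1 ∧ IsCoprime (f g i).1 (f g i).2) → ∀ (g₀ : Fin T) (i₀ : Fin K),
    ∀ D : ℕ, D₀ ≤ D → (∀ g i, (f g i).1.natAbs ≤ D) → ∀ v : ℕ, v < WW D →
    (∀ p ∈ (Icc 1 D).filter Nat.Prime, ∀ g i, ¬ (p : ℤ) ∣ (f g i).1 * v + (f g i).2) →
    ∃ s : ℕ, s ≤ WW D * (T * K + 3) ∧ (∀ g i, (f g i).2 + (f g i).1 * s ≠ 0) ∧
      ∀ᶠ N : ℕ in atTop, ∃ (S : Finset (Fin T)) (σ τ : Fin T → Fin K), (g₀ ∈ S ∧ σ g₀ = i₀) ∧
        c * (N / (WW D * (Real.log N) ^ (T * K + 1))) ≤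
          (((Rp f δ s S σ τ N).filter (fun n => n ≡ v [MOD WW D])).card : ℝ) := by
  obtain ⟨K, hK, δ, hδ, D₀, c, hc, H⟩ := thmQW T hT
  have : NeZero K := ⟨by omega⟩
  refine ⟨K, by omega, δ / 2, by positivity, D₀, c / (2 ^ T * K ^ T * K ^ T : ℕ), by
    have : 0 < 2 ^ T * K ^ T * K ^ T := by positivity
    positivity, ?_⟩
  intro f hinj hpos g₀ i₀ D hD hslope v hv hcop
  apply lam_of (by omega) hδ hc D (fun pr => pr (ix g₀ i₀))
    (fun S σ => g₀ ∈ S ∧ σ g₀ = i₀) _ _ f hinj hpos hslope v hv hcop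
  · intro pr hpr
    refine ⟨{g₀}, fun _ => i₀, ⟨mem_singleton_self _, rfl⟩, fun g hg => ?_⟩
    rw [mem_singleton.1 hg]
    exact hpr
  · intro α hα hαD
    filter_upwards [H D hD α cl Pool.Agent.TH899.UG.Uni.card_cl (fun _ => trivial) hα hαD] with N hN
    intro h Mo h1 h2 h3 v h4
    convert hN h Mo h1 h2 h3 v h4 (ix g₀ i₀)

end Pool.Agent.Helper74.AE
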